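import Pool.Agent.E8helper8.LG.Lat

/-!
Back and forth between the lattices `D κ X` and `D κ X'` for large sets `X`, `X'`.
-/

namespace Pool.Agent.E8helper8.LG

open Cardinal FirstOrder

/-- All quantifier blocks of the formula have at most `κ` variables. -/
def InfFormula.BlocksLE {L : FirstOrder.Language.{0, 0}} (κ : Cardinal.{0}) :
    {α : Type} → InfFormula L α → Prop
  | _, .equal _ _ => True
  | _, .rel _ _ => True
  | _, .neg φ => φ.BlocksLE κ
  | _, .conj φ => ∀ i, (φ i).BlocksLE κ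
  | _, .disj φ => ∀ i, (φ i).BlocksLE κ
  | _, @InfFormula.all _ _ β φ => #β ≤ κ ∧ φ.BlocksLE κ
  | _, @InfFormula.ex _ _ β φ => #β ≤ κ ∧ φ.BlocksLE κ

lemma InfFormula.exists_bound {L : FirstOrder.Language.{0, 0}} {α : Type} (φ : InfFormula L α) :
    ∃ κ₀ : Cardinal.{0}, ∀ κ, κ₀ ≤ κ → φ.BlocksLE κ := by
  induction φ with
  | equal s t => exact ⟨0, fun _ _ => trivial⟩
  | rel R ts => exact ⟨0, fun _ _ => trivial⟩
  | neg φ ih => exact ih
  | conj φ ih =>
    choose κ₀ hκ₀ using ih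
    refine ⟨iSup κ₀, fun κ hκ i => hκ₀ i κ (le_trans (le_ciSup (Cardinal.bddAbove_of_small) i) hκ)⟩
  | disj φ ih =>
    choose κ₀ hκ₀ using ih
    refine ⟨iSup κ₀, fun κ hκ i => hκ₀ i κ (le_trans (le_ciSup (Cardinal.bddAbove_of_small) i) hκ)⟩
  | @all α β φ ih =>
    obtain ⟨κ₀, h⟩ := ih
    exact ⟨max κ₀ #β, fun κ hκ => ⟨le_trans (le_max_right _ _) hκ,
      h κ (le_trans (le_max_left _ _) hκ)⟩⟩
  | @ex α β φ ih =>
    obtain ⟨κ₀, h⟩ := ih
    exact ⟨max κ₀ #β, fun κ hκ => ⟨le_trans (le_max_right _ _) hκ,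
      h κ (le_trans (le_max_left _ _) hκ)⟩⟩

variable {X X' : Type}

/-- A bijection between small subsets, given as a relation. -/
structure PB (κ : Cardinal.{0}) (R : X → X' → Prop) : Prop where
  left : ∀ x x' y', R x x' → R x y' → x' = y'
  right : ∀ x y x', R x x' → R y x' → x = y
  dom : #{x | ∃ x', R x x'} ≤ κ
  ran : #{x' | ∃ x, R x x'} ≤ κ

/-- Matching of points: either related, or both outside. -/
def Mt (R : X → X' → Prop) (x : X) (x' : X') : Prop :=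
  R x x' ∨ ((∀ z', ¬ R x z') ∧ (∀ z, ¬ R z x'))

lemma PB.flip {κ : Cardinal.{0}} {R : X → X' → Prop} (h : PB κ R) :
    PB κ (fun x' x => R x x') :=
  ⟨fun x x' y' h1 h2 => h.right _ _ _ h1 h2, fun x y x' h1 h2 => h.left _ _ _ h1 h2, h.ran, h.dom⟩

lemma Mt.flip {R : X → X' → Prop} {x : X} {x' : X'} (h : Mt R x x') :
    Mt (fun x' x => R x x') x' x := by
  rcases h with h | ⟨h, h'⟩
  · exact Or.inl h
  · exact Or.inr ⟨h', h⟩

/-- The sets `U`, `U'` agree along the matching. -/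
def Agr (R : X → X' → Prop) (U : X → X → Option ℕ → Prop)
    (U' : X' → X' → Option ℕ → Prop) : Prop :=
  ∀ x x' y y', Mt R x x' → Mt R y y' → x ≠ y → x' ≠ y' → ∀ l, U x y l ↔ U' x' y' l

lemma Agr.flip {R : X → X' → Prop} {U : X → X → Option ℕ → Prop}
    {U' : X' → X' → Option ℕ → Prop} (h : Agr R U U') : Agr (fun x' x => R x x') U' U :=
  fun _ _ _ _ h1 h2 hne hne' l => (h _ _ _ _ h1.flip h2.flip hne' hne l).symm

lemma exists_not_mem_of_card_lt {S : Set X} (h : #S < #X) : ∃ x, x ∉ S := by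
  by_contra hcon
  push Not at hcon
  have : S = Set.univ := Set.eq_univ_of_forall hcon
  rw [this, Cardinal.mk_univ] at h
  exact lt_irrefl _ h

lemma card_insert_le {κ : Cardinal.{0}} (hκ : ℵ₀ ≤ κ) {S : Set X} (h : #S ≤ κ) (a : X) :
    #(insert a S : Set X) ≤ κ :=
  (Cardinal.mk_insert_le).trans (Cardinal.add_le_of_le hκ h (Cardinal.one_le_aleph0.trans hκ))

lemma PB.exists_pair {κ : Cardinal.{0}} (hκ : ℵ₀ ≤ κ) {R : X → X' → Prop} (h : PB κ R)
    (hX : κ < #X) {x' y' : X'} (hne : x' ≠ y') :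
    ∃ x y, x ≠ y ∧ Mt R x x' ∧ Mt R y y' := by
  by_cases hx : ∃ x, R x x'
  · obtain ⟨x, hx⟩ := hx
    by_cases hy : ∃ y, R y y'
    · obtain ⟨y, hy⟩ := hy
      refine ⟨x, y, ?_, Or.inl hx, Or.inl hy⟩
      rintro rfl
      exact hne (h.left _ _ _ hx hy)
    · push Not at hy
      obtain ⟨y, hy'⟩ := exists_not_mem_of_card_lt (lt_of_le_of_lt h.dom hX)
      simp only [Set.mem_ofPred_eq, not_exists] at hy'
      refine ⟨x, y, ?_, Or.inl hx, Or.inr ⟨hy', hy⟩⟩
      rintro rfl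
      exact hy' _ hx
  · push Not at hx
    obtain ⟨x, hx'⟩ := exists_not_mem_of_card_lt (lt_of_le_of_lt h.dom hX)
    simp only [Set.mem_ofPred_eq, not_exists] at hx'
    by_cases hy : ∃ y, R y y'
    · obtain ⟨y, hy⟩ := hy
      refine ⟨x, y, ?_, Or.inr ⟨hx', hx⟩, Or.inl hy⟩
      rintro rfl
      exact hx' _ hy
    · push Not at hy
      obtain ⟨y, hy'⟩ := exists_not_mem_of_card_lt
        (lt_of_le_of_lt (card_insert_le hκ h.dom x) hX)
      simp only [Set.mem_insert_iff, Set.mem_ofPred_eq, not_or, not_exists] at hy'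
      exact ⟨x, y, fun hxy => hy'.1 hxy.symm, Or.inr ⟨hx', hx⟩, Or.inr ⟨hy'.2, hy⟩⟩

/-- Extension of a bijection of small sets to a larger small set. -/
lemma PB.extend {κ : Cardinal.{0}} (hκ : ℵ₀ ≤ κ) {R : X → X' → Prop} (h : PB κ R)
    (hX' : κ < #X') (Z : Set X) (hZ : #Z ≤ κ) :
    ∃ R₁ : X → X' → Prop, PB κ R₁ ∧ (∀ x x', Mt R₁ x x' → Mt R x x') ∧
      ∀ x ∈ Z, ∃ x', R₁ x x' := by
  classical
  set A : Set X := {x | x ∈ Z ∧ ∀ x', ¬ R x x'} with hA
  set B : Set X' := {x' | ∀ x, ¬ R x x'} with hB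
  have hAκ : #A ≤ κ := (Cardinal.mk_le_mk_of_subset (fun x hx => hx.1)).trans hZ
  have hBκ : κ ≤ #B := by
    by_contra hcon
    push Not at hcon
    have h1 : (Set.univ : Set X') ⊆ {x' | ∃ x, R x x'} ∪ B := by
      intro x' _
      by_cases hx : ∃ x, R x x'
      · exact Or.inl hx
      · push Not at hx
        exact Or.inr hx
    have h2 := (Cardinal.mk_le_mk_of_subset h1).trans (Cardinal.mk_union_le _ _)
    rw [Cardinal.mk_univ] at h2
    exact absurd (h2.trans (Cardinal.add_le_of_le hκ h.ran hcon.le)) (not_le.mpr hX')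
  obtain ⟨e⟩ : Nonempty (A ↪ B) := (Cardinal.le_def _ _).1 (hAκ.trans hBκ)
  refine ⟨fun x x' => R x x' ∨ ∃ a : A, a.1 = x ∧ (e a).1 = x', ⟨?_, ?_, ?_, ?_⟩, ?_, ?_⟩
  · rintro x x' y' (h1 | ⟨a, ha, ha'⟩) (h2 | ⟨b, hb, hb'⟩)
    · exact h.left _ _ _ h1 h2
    · exact absurd h1 (by rw [← hb]; exact b.2.2 _)
    · exact absurd h2 (by rw [← ha]; exact a.2.2 _)
    · have : a = b := Subtype.ext (ha.trans hb.symm)
      rw [← ha', ← hb', this]
  · rintro x y x' (h1 | ⟨a, ha, ha'⟩) (h2 | ⟨b, hb, hb'⟩)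
    · exact h.right _ _ _ h1 h2
    · exact absurd h1 (by rw [← hb']; exact (e b).2 _)
    · exact absurd h2 (by rw [← ha']; exact (e a).2 _)
    · have : a = b := e.injective (Subtype.ext (ha'.trans hb'.symm))
      rw [← ha, ← hb, this]
  · have hsub : {x | ∃ x', R x x' ∨ ∃ a : A, a.1 = x ∧ (e a).1 = x'} ⊆ {x | ∃ x', R x x'} ∪ A := by
      rintro x ⟨x', h1 | ⟨a, ha, _⟩⟩
      · exact Or.inl ⟨x', h1⟩
      · right; rw [← ha]; exact a.2
    exact (Cardinal.mk_le_mk_of_subset hsub).trans ((Cardinal.mk_union_le _ _).trans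
      (Cardinal.add_le_of_le hκ h.dom hAκ))
  · have hsub : {x' | ∃ x, R x x' ∨ ∃ a : A, a.1 = x ∧ (e a).1 = x'} ⊆
        {x' | ∃ x, R x x'} ∪ Set.range (fun a : A => (e a).1) := by
      rintro x' ⟨x, h1 | ⟨a, _, ha⟩⟩
      · exact Or.inl ⟨x, h1⟩
      · right; exact ⟨a, ha⟩
    exact (Cardinal.mk_le_mk_of_subset hsub).trans ((Cardinal.mk_union_le _ _).trans
      (Cardinal.add_le_of_le hκ h.ran (Cardinal.mk_range_le.trans hAκ)))
  · rintro x x' ((h1 | ⟨a, ha, ha'⟩) | ⟨h1, h2⟩)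
    · exact Or.inl h1
    · right
      refine ⟨?_, ?_⟩
      · rw [← ha]; exact a.2.2
      · rw [← ha']; exact (e a).2
    · right
      exact ⟨fun z' hz' => h1 z' (Or.inl hz'), fun z hz => h2 z (Or.inl hz)⟩
  · intro x hx
    by_cases hR : ∃ x', R x x'
    · obtain ⟨x', hx'⟩ := hR
      exact ⟨x', Or.inl hx'⟩
    · push Not at hR
      exact ⟨e ⟨x, hx, hR⟩, Or.inr ⟨⟨x, hx, hR⟩, rfl, rfl⟩⟩

/-- Transport of a set along a bijection whose domain contains its support. -/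
lemma PB.transport {κ : Cardinal.{0}} (hκ : ℵ₀ ≤ κ) {R : X → X' → Prop} (h : PB κ R)
    (hX : κ < #X) {U : X → X → Option ℕ → Prop} (hU : IsElt κ U) {N Y : Set X}
    (hN : N.Finite) (hs : SuppBy N Y U) (hNR : ∀ x ∈ N, ∃ x', R x x')
    (hYR : ∀ x ∈ Y, ∃ x', R x x') :
    ∃ U' : X' → X' → Option ℕ → Prop, IsElt κ U' ∧ Agr R U U' := by
  classical
  obtain ⟨c, hc⟩ := hs.c1
  -- symmetric form of the support condition at all levels
  have hc2' : ∀ x, x ∈ N → ∀ y, y ∉ N → ∀ z, z ∉ N → U x y = U x z → ∀ l, (U y x l ↔ U z x l) := by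
    intro x hx y hy z hz hyz l
    cases l with
    | none =>
      constructor
      · intro h1
        apply hU.symm
        rw [← hyz]
        exact hU.symm _ _ h1
      · intro h1
        apply hU.symm
        rw [hyz]
        exact hU.symm _ _ h1
    | some l => rw [hs.c2 x hx y hy l, hs.c2 x hx z hz l, hyz]
  -- dependence only on the matching
  have key : ∀ x x' y y' a b, Mt R x x' → Mt R y y' → Mt R a x' → Mt R b y' →
      x ≠ y → a ≠ b → ∀ l, (U x y l ↔ U a b l) := by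
    intro x x' y y' a b hx hy ha hb hxy hab l
    have dich : ∀ {p q : X} {r : X'}, Mt R p r → Mt R q r → p = q ∨ ((∀ z', ¬ R p z') ∧
        (∀ z', ¬ R q z')) := by
      rintro p q r (h1 | ⟨h1, h1'⟩) (h2 | ⟨h2, h2'⟩)
      · exact Or.inl (h.right _ _ _ h1 h2)
      · exact absurd h1 (h2' _)
      · exact absurd h2 (h1' _)
      · exact Or.inr ⟨h1, h2⟩
    have outN : ∀ {p : X}, (∀ z', ¬ R p z') → p ∉ N := by
      intro p hp hpN
      obtain ⟨z', hz'⟩ := hNR p hpN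
      exact hp _ hz'
    have outY : ∀ {p : X}, (∀ z', ¬ R p z') → p ∉ Y := by
      intro p hp hpN
      obtain ⟨z', hz'⟩ := hYR p hpN
      exact hp _ hz'
    -- change the second coordinate outside of the domain
    have step2 : ∀ {p q r : X}, p ≠ q → p ≠ r → (∀ z', ¬ R q z') → (∀ z', ¬ R r z') →
        ∀ l, (U p q l ↔ U p r l) := by
      intro p q r hpq hpr hq hr l
      by_cases hp : p ∈ N
      · rw [hs.c4 p hp q (outN hq) (outY hq) r (outN hr) (outY hr)]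
      · rw [hc p hp q (outN hq) hpq l, hc p hp r (outN hr) hpr l]
    have step1 : ∀ {p q r : X}, q ≠ p → r ≠ p → (∀ z', ¬ R q z') → (∀ z', ¬ R r z') →
        ∀ l, (U q p l ↔ U r p l) := by
      intro p q r hpq hpr hq hr l
      by_cases hp : p ∈ N
      · exact hc2' p hp q (outN hq) r (outN hr)
          (hs.c4 p hp q (outN hq) (outY hq) r (outN hr) (outY hr)) l
      · rw [hc q (outN hq) p hp hpq l, hc r (outN hr) p hp hpr l]
    rcases dich hx ha with rfl | ⟨hx1, ha1⟩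
    · rcases dich hy hb with rfl | ⟨hy1, hb1⟩
      · rfl
      · exact step2 hxy hab hy1 hb1 l
    · rcases dich hy hb with rfl | ⟨hy1, hb1⟩
      · exact step1 hxy hab hx1 ha1 l
      · rw [hc x (outN hx1) y (outN hy1) hxy l, hc a (outN ha1) b (outN hb1) hab l]
  refine ⟨fun x' y' l => x' ≠ y' ∧ ∃ x y, x ≠ y ∧ Mt R x x' ∧ Mt R y y' ∧ U x y l, ?_, ?_⟩
  swap
  · intro x x' y y' hx hy hxy hxy' l
    constructor
    · intro hU1
      exact ⟨hxy', x, y, hxy, hx, hy, hU1⟩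
    · rintro ⟨_, a, b, hab, ha, hb, hU1⟩
      exact (key x x' y y' a b hx hy ha hb hxy hab l).2 hU1
  -- the value at a matching pair
  have val : ∀ x' y' x y, x ≠ y → x' ≠ y' → Mt R x x' → Mt R y y' → ∀ l,
      ((x' ≠ y' ∧ ∃ x y, x ≠ y ∧ Mt R x x' ∧ Mt R y y' ∧ U x y l) ↔ U x y l) := by
    intro x' y' x y hxy hxy' hx hy l
    constructor
    · rintro ⟨_, a, b, hab, ha, hb, hU1⟩
      exact (key x x' y y' a b hx hy ha hb hxy hab l).2 hU1
    · intro hU1
      exact ⟨hxy', x, y, hxy, hx, hy, hU1⟩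
  refine ⟨?_, ?_, ?_, ?_⟩
  · rintro x l ⟨h1, _⟩
    exact h1 rfl
  · rintro x' y' ⟨h1, x, y, hxy, hx, hy, hU1⟩
    exact ⟨h1.symm, y, x, hxy.symm, hy, hx, hU.symm _ _ hU1⟩
  · intro x' y' hne
    obtain ⟨x, y, hxy, hx, hy⟩ := h.exists_pair hκ hX hne
    obtain ⟨M, hM⟩ := hU.near x y hxy
    refine ⟨M, ?_⟩
    rcases hM with hM | ⟨hM, hO⟩
    · left
      intro n hn
      exact ⟨(val x' y' x y hxy hne hx hy _).2 (hM n hn).1,
        (val y' x' y x hxy.symm hne.symm hy hx _).2 (hM n hn).2⟩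
    · right
      refine ⟨fun n hn => ⟨fun h1 => ?_, fun h1 => ?_⟩, fun h1 => ?_⟩
      · exact (hM n hn).1 ((val x' y' x y hxy hne hx hy _).1 h1)
      · exact (hM n hn).2 ((val y' x' y x hxy.symm hne.symm hy hx _).1 h1)
      · exact hO ((val x' y' x y hxy hne hx hy _).1 h1)
  -- support
  refine ⟨{x' | ∃ x ∈ N, R x x'}, {x' | ∃ x, R x x'}, ?_, h.ran, ?_⟩
  · have h1 : {x' | ∃ x ∈ N, R x x'} = ⋃ x ∈ N, {x' | R x x'} := by
      ext x'
      simp
    rw [h1]
    refine hN.biUnion fun x _ => Set.Subsingleton.finite ?_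
    intro a ha b hb
    exact h.left _ _ _ ha hb
  have outN' : ∀ {p : X} {p' : X'}, Mt R p p' → p' ∉ {x' | ∃ x ∈ N, R x x'} → p ∉ N := by
    rintro p p' (h1 | ⟨h1, _⟩) hp' hp
    · exact hp' ⟨p, hp, h1⟩
    · obtain ⟨z, hz⟩ := hNR p hp
      exact h1 _ hz
  refine ⟨⟨c, ?_⟩, ?_, ?_, ?_⟩
  · intro x' hx' y' hy' hne l
    obtain ⟨x, y, hxy, hx, hy⟩ := h.exists_pair hκ hX hne
    have h1 := val x' y' x y hxy hne hx hy l
    rw [hc x (outN' hx hx') y (outN' hy hy') hxy l] at h1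
    exact propext h1
  · rintro x' ⟨x, hxN, hx⟩ y' hy' l
    have hne : x' ≠ y' := by
      rintro rfl
      exact hy' ⟨x, hxN, hx⟩
    obtain ⟨y, hy, hxy⟩ : ∃ y, Mt R y y' ∧ x ≠ y := by
      obtain ⟨a, b, hab, ha, hb⟩ := h.exists_pair hκ hX hne
      refine ⟨b, hb, ?_⟩
      rintro rfl
      exact outN' hb hy' hxN
    have hyN := outN' hy hy'
    apply propext
    refine (val y' x' y x hxy.symm hne.symm hy (Or.inl hx) _).trans ?_
    refine Iff.trans ?_ (val x' y' x y hxy hne (Or.inl hx) hy _).symm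
    rw [hs.c2 x hxN y hyN l]
  · rintro x' ⟨x, hxN, hx⟩
    refine (hs.c3 x hxN).subset ?_
    rintro f ⟨y', hy', rfl⟩
    have hne : x' ≠ y' := by
      rintro rfl
      exact hy' ⟨x, hxN, hx⟩
    obtain ⟨y, hy, hxy⟩ : ∃ y, Mt R y y' ∧ x ≠ y := by
      obtain ⟨a, b, hab, ha, hb⟩ := h.exists_pair hκ hX hne
      refine ⟨b, hb, ?_⟩
      rintro rfl
      exact outN' hb hy' hxN
    refine ⟨y, outN' hy hy', ?_⟩
    funext l
    exact propext (val x' y' x y hxy hne (Or.inl hx) hy _)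
  · rintro x' ⟨x, hxN, hx⟩ y' hy' hyY z' hz' hzY
    have hne : x' ≠ y' := by
      rintro rfl
      exact hy' ⟨x, hxN, hx⟩
    have hne' : x' ≠ z' := by
      rintro rfl
      exact hz' ⟨x, hxN, hx⟩
    obtain ⟨y, hy, hxy⟩ : ∃ y, Mt R y y' ∧ x ≠ y := by
      obtain ⟨a, b, hab, ha, hb⟩ := h.exists_pair hκ hX hne
      refine ⟨b, hb, ?_⟩
      rintro rfl
      exact outN' hb hy' hxN
    funext l
    have hyM : ∀ z', ¬ R y z' := by
      rcases hy with h1 | ⟨h1, _⟩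
      · exact absurd ⟨y, h1⟩ hyY
      · exact h1
    have hMz : Mt R y z' := Or.inr ⟨hyM, fun z hz => hzY ⟨z, hz⟩⟩
    apply propext
    exact (val x' y' x y hxy hne (Or.inl hx) hy _).trans
      (val x' z' x y hxy hne' (Or.inl hx) hMz _).symm

variable {κ : Cardinal.{0}} [hκ : Fact (ℵ₀ ≤ κ)]

/-- The back-and-forth relation between assignments. -/
def Rel {α : Type} (v : α → D κ X) (w : α → D κ X') : Prop :=
  ∃ R : X → X' → Prop, PB κ R ∧ ∀ a, Agr R (v a).1 (w a).1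

lemma Rel.flip {α : Type} {v : α → D κ X} {w : α → D κ X'} (h : Rel v w) : Rel w v := by
  obtain ⟨R, hR, h⟩ := h
  exact ⟨_, hR.flip, fun a => (h a).flip⟩

lemma Rel.extend {α β : Type} (hβ : #β ≤ κ) (hX : κ < #X) (hX' : κ < #X')
    {v : α → D κ X} {w : α → D κ X'} (h : Rel v w) (v₁ : β → D κ X) :
    ∃ w₁ : β → D κ X', Rel (Sum.elim v v₁) (Sum.elim w w₁) := by
  obtain ⟨R, hR, h⟩ := h
  choose N Y hN hY hs using fun b => (v₁ b).2.supp
  have hZ : #(⋃ b, (N b ∪ Y b) : Set X) ≤ κ := by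
    refine (Cardinal.mk_iUnion_le _).trans ?_
    refine (mul_le_mul' hβ (ciSup_le' fun b => ?_)).trans (Cardinal.mul_eq_self hκ.out).le
    refine (Cardinal.mk_union_le _ _).trans (Cardinal.add_le_of_le hκ.out ?_ (hY b))
    exact ((Set.Finite.lt_aleph0 (hN b)).le).trans hκ.out
  obtain ⟨R₁, hR₁, hmt, hdom⟩ := hR.extend hκ.out hX' _ hZ
  have := fun b => hR₁.transport hκ.out hX (v₁ b).2 (hN b) (hs b)
    (fun x hx => hdom x (Set.mem_iUnion.2 ⟨b, Or.inl hx⟩))
    (fun x hx => hdom x (Set.mem_iUnion.2 ⟨b, Or.inr hx⟩))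
  choose U' hU' hA using this
  refine ⟨fun b => ⟨U' b, hU' b⟩, R₁, hR₁, ?_⟩
  rintro (a | b)
  · intro x x' y y' hx hy
    exact h a x x' y y' (hmt _ _ hx) (hmt _ _ hy)
  · exact hA b

/-- The relation is preserved by terms. -/
lemma Rel.term {α : Type} {R : X → X' → Prop}
    {v : α → D κ X} {w : α → D κ X'} (h : ∀ a, Agr R (v a).1 (w a).1) (t : latSig.Term α) :
    Agr R (t.realize v).1 (t.realize w).1 := by
  induction t with
  | var a => exact h a
  | @func n f ts ih =>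
    cases f with
    | sup =>
      intro x x' y y' hx hy hxy hxy' l
      have h0 := ih 0 x x' y y' hx hy hxy hxy' l
      have h1 := ih 1 x x' y y' hx hy hxy hxy' l
      exact or_congr h0 h1
    | inf =>
      intro x x' y y' hx hy hxy hxy' l
      have h0 := ih 0 x x' y y' hx hy hxy hxy' l
      have h1 := ih 1 x x' y y' hx hy hxy hxy' l
      exact and_congr h0 h1

lemma Agr.eq_of_eq (hX : κ < #X) {R : X → X' → Prop} (hR : PB κ R) {u v : D κ X}
    {u' v' : D κ X'} (h : Agr R u.1 u'.1) (h' : Agr R v.1 v'.1) (huv : u = v) : u' = v' := by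
  apply Subtype.ext
  funext x' y' l
  by_cases hne : x' = y'
  · subst hne
    exact propext ⟨fun h1 => absurd h1 (u'.2.diag _ _), fun h1 => absurd h1 (v'.2.diag _ _)⟩
  · obtain ⟨x, y, hxy, hx, hy⟩ := hR.exists_pair hκ.out hX hne
    have h1 := h x x' y y' hx hy hxy hne l
    have h2 := h' x x' y y' hx hy hxy hne l
    rw [← h1, ← h2, huv]

/-- Related assignments satisfy the same formulas with small quantifier blocks. -/
theorem Rel.holds_iff (hX : κ < #X) (hX' : κ < #X') {α : Type} (φ : InfFormula latSig α)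
    (hφ : φ.BlocksLE κ) (v : α → D κ X) (w : α → D κ X') (h : Rel v w) :
    φ.Holds (D κ X) v ↔ φ.Holds (D κ X') w := by
  induction φ with
  | equal s t =>
    obtain ⟨R, hR, h⟩ := h
    have hs := Rel.term h s
    have ht := Rel.term h t
    exact ⟨fun he => Agr.eq_of_eq hX hR hs ht he, fun he => Agr.eq_of_eq hX' hR.flip hs.flip
      ht.flip he⟩
  | rel R ts => exact R.elim
  | neg φ ih => exact not_congr (ih hφ v w h)
  | conj φ ih => exact forall_congr' fun i => ih i (hφ i) v w h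
  | disj φ ih => exact exists_congr fun i => ih i (hφ i) v w h
  | @all α β φ ih =>
    constructor
    · intro hall w₁
      obtain ⟨v₁, hr⟩ := h.flip.extend hφ.1 hX' hX w₁
      exact (ih hφ.2 _ _ hr.flip).1 (hall v₁)
    · intro hall v₁
      obtain ⟨w₁, hr⟩ := h.extend hφ.1 hX hX' v₁
      exact (ih hφ.2 _ _ hr).2 (hall w₁)
  | @ex α β φ ih =>
    constructor
    · rintro ⟨v₁, hv₁⟩
      obtain ⟨w₁, hr⟩ := h.extend hφ.1 hX hX' v₁
      exact ⟨w₁, (ih hφ.2 _ _ hr).1 hv₁⟩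
    · rintro ⟨w₁, hw₁⟩
      obtain ⟨v₁, hr⟩ := h.flip.extend hφ.1 hX' hX w₁
      exact ⟨v₁, (ih hφ.2 _ _ hr.flip).2 hw₁⟩

/-- Sentences with small quantifier blocks do not distinguish the lattices. -/
theorem models_iff (hX : κ < #X) (hX' : κ < #X') (φ : InfFormula latSig Empty)
    (hφ : φ.BlocksLE κ) : Models (D κ X) φ ↔ Models (D κ X') φ := by
  refine Rel.holds_iff hX hX' φ hφ _ _ ⟨fun _ _ => False, ⟨?_, ?_, ?_, ?_⟩, fun a => a.elim⟩
  · intro _ _ _ h; exact h.elim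
  · intro _ _ _ h; exact h.elim
  · simp
  · simp

end Pool.Agent.E8helper8.LG
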