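import Mathlib

/-!
Definitions: infinitary formulas in the signature of lattices, and the poset of compact
(finitely generated) ideals of an Abelian lattice-ordered group.
-/

namespace Pool.Agent.E8helper8.LG

open FirstOrder

/-- Formulas of the infinitary logic over the signature `L`, with free variables indexed by the
type `α`.  Conjunctions and disjunctions are over arbitrary (small) index types, and quantifiers
bind arbitrary (small) sets `β` of new variables at once. -/
inductive InfFormula (L : FirstOrder.Language.{0, 0}) : Type → Type 1
  | equal {α : Type} (s t : L.Term α) : InfFormula L α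
  | rel {α : Type} {n : ℕ} (R : L.Relations n) (ts : Fin n → L.Term α) : InfFormula L α
  | neg {α : Type} (φ : InfFormula L α) : InfFormula L α
  | conj {α ι : Type} (φ : ι → InfFormula L α) : InfFormula L α
  | disj {α ι : Type} (φ : ι → InfFormula L α) : InfFormula L α
  | all {α β : Type} (φ : InfFormula L (α ⊕ β)) : InfFormula L α
  | ex {α β : Type} (φ : InfFormula L (α ⊕ β)) : InfFormula L α

/-- Truth of an infinitary formula in a structure `M` under an assignment of its free variables. -/
def InfFormula.Holds {L : FirstOrder.Language.{0, 0}} (M : Type) [L.Structure M] :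
    {α : Type} → InfFormula L α → (α → M) → Prop
  | _, .equal s t, v => s.realize v = t.realize v
  | _, .rel R ts, v => Language.Structure.RelMap R (fun i => (ts i).realize v)
  | _, .neg φ, v => ¬ φ.Holds M v
  | _, .conj φ, v => ∀ i, (φ i).Holds M v
  | _, .disj φ, v => ∃ i, (φ i).Holds M v
  | _, .all φ, v => ∀ w, φ.Holds M (Sum.elim v w)
  | _, .ex φ, v => ∃ w, φ.Holds M (Sum.elim v w)

/-- The two binary function symbols of the signature of lattices. -/
inductive LatFunc : ℕ → Type
  | sup : LatFunc 2
  | inf : LatFunc 2

/-- The signature of lattices: join and meet; it has no relation symbols. -/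
def latSig : FirstOrder.Language.{0, 0} := ⟨LatFunc, fun _ => Empty⟩

/-- A lattice as a structure in the signature of lattices. -/
instance latStructure (M : Type) [Lattice M] : latSig.Structure M where
  funMap := fun {n} (f : LatFunc n) => match n, f with
    | _, .sup => fun x => x 0 ⊔ x 1
    | _, .inf => fun x => x 0 ⊓ x 1
  RelMap := fun {_} (r : Empty) => r.elim

/-- The sentence `φ` holds in the lattice `M`. -/
def Models (M : Type) [Lattice M] (φ : InfFormula latSig Empty) : Prop :=
  φ.Holds M (fun e => e.elim)

section ideals

variable (G : Type) [AddCommGroup G] [Lattice G]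

/-- An ideal of an Abelian lattice-ordered group: a convex subgroup closed under join and meet. -/
structure LIdeal where
  carrier : Set G
  zero_mem : 0 ∈ carrier
  add_mem : ∀ {a b : G}, a ∈ carrier → b ∈ carrier → a + b ∈ carrier
  neg_mem : ∀ {a : G}, a ∈ carrier → -a ∈ carrier
  sup_mem : ∀ {a b : G}, a ∈ carrier → b ∈ carrier → a ⊔ b ∈ carrier
  inf_mem : ∀ {a b : G}, a ∈ carrier → b ∈ carrier → a ⊓ b ∈ carrier
  convex : ∀ {a b c : G}, a ∈ carrier → c ∈ carrier → a ≤ b → b ≤ c → b ∈ carrier

variable {G}

/-- The ideal is generated by a finite set. -/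
def LIdeal.FG (I : LIdeal G) : Prop :=
  ∃ S : Set G, S.Finite ∧ S ⊆ I.carrier ∧ ∀ J : LIdeal G, S ⊆ J.carrier → I.carrier ⊆ J.carrier

variable (G)

/-- The set of finitely generated (equivalently compact) ideals of `G`. -/
def IdC : Type := {I : LIdeal G // I.FG}

/-- Finitely generated ideals are ordered by inclusion. -/
instance : LE (IdC G) := ⟨fun I J => I.1.carrier ⊆ J.1.carrier⟩

/-- `G` is Archimedean: if all positive multiples of `x` are at most `y`, then `x` is at most 0. -/
def IsArch : Prop := ∀ x y : G, (∀ n : ℕ, 1 ≤ n → n • x ≤ y) → x ≤ 0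

/-- `G` has an order unit: some `u ≥ 0` with every element at most a positive multiple of `u`. -/
def HasOrderUnit : Prop := ∃ u : G, 0 ≤ u ∧ ∀ x : G, ∃ n : ℕ, 1 ≤ n ∧ x ≤ n • u

end ideals

/-- The lattice `M` is isomorphic to the lattice of finitely generated ideals of some
Archimedean lattice-ordered group with an order unit. -/
def InCu (M : Type) [Lattice M] : Prop :=
  ∃ (G : Type) (_ : AddCommGroup G) (_ : Lattice G) (_ : IsOrderedAddMonoid G),
    IsArch G ∧ HasOrderUnit G ∧ Nonempty (M ≃o IdC G)

/-- The lattice `M` is isomorphic to the lattice of finitely generated ideals of some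
Abelian lattice-ordered group with an order unit. -/
def UnitRepresentable (M : Type) [Lattice M] : Prop :=
  ∃ (G : Type) (_ : AddCommGroup G) (_ : Lattice G) (_ : IsOrderedAddMonoid G),
    HasOrderUnit G ∧ Nonempty (M ≃o IdC G)

end Pool.Agent.E8helper8.LG
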