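import Pool.Agent.E8helper8.LG.Id

/-!
Germs of real functions at a limit point, and the finiteness of the set of coordinate functions.
-/

namespace Pool.Agent.E8helper8.LG

open Cardinal Filter Topology

noncomputable section

/-- The sequence `1 / (k + 1)`. -/
def sq (k : ℕ) : ℝ := 1 / ((k : ℝ) + 1)

lemma sq_pos (k : ℕ) : 0 < sq k := by unfold sq; positivity

lemma sq_tendsto : Tendsto sq atTop (𝓝 0) := tendsto_one_div_add_atTop_nhds_zero_nat

lemma sq_succ_tendsto : Tendsto (fun k => sq (k + 1)) atTop (𝓝 0) :=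
  (tendsto_add_atTop_iff_nat 1).2 sq_tendsto

/-- The germ of a sequence near infinity. -/
def HasGerm (a : ℕ → ℝ) (c α β : ℝ) : Prop :=
  ∃ M : ℕ, ∀ k, M ≤ k → a k = c + α * sq k + β * sq (k + 1)

lemma HasGerm.tendsto {a : ℕ → ℝ} {c α β : ℝ} (h : HasGerm a c α β) :
    Tendsto a atTop (𝓝 c) := by
  obtain ⟨M, hM⟩ := h
  have h1 : Tendsto (fun k => c + α * sq k + β * sq (k + 1)) atTop (𝓝 (c + α * 0 + β * 0)) :=
    (tendsto_const_nhds.add (sq_tendsto.const_mul α)).add (sq_succ_tendsto.const_mul β)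
  simp only [mul_zero, add_zero] at h1
  exact h1.congr' (eventually_atTop.2 ⟨M, fun k hk => (hM k hk).symm⟩)

lemma HasGerm.tendsto' {a : ℕ → ℝ} {α β : ℝ} (h : HasGerm a 0 α β) :
    Tendsto (fun k : ℕ => ((k : ℝ) + 2) * a k) atTop (𝓝 (α + β)) := by
  obtain ⟨M, hM⟩ := h
  have h1 : Tendsto (fun k => (α + β) + α * sq k) atTop (𝓝 ((α + β) + α * 0)) :=
    tendsto_const_nhds.add (sq_tendsto.const_mul α)
  simp only [mul_zero, add_zero] at h1
  refine h1.congr' (eventually_atTop.2 ⟨M, fun k hk => ?_⟩)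
  show _ = ((k : ℝ) + 2) * a k
  rw [hM k hk]
  unfold sq
  push_cast
  have e1 : (k : ℝ) + 1 ≠ 0 := by positivity
  have e2 : (k : ℝ) + 1 + 1 ≠ 0 := by positivity
  field_simp
  ring

lemma HasGerm.eventually_pos {a : ℕ → ℝ} {c α β : ℝ} (h : HasGerm a c α β)
    (hp : 0 < c ∨ (c = 0 ∧ 0 < α + β)) : ∀ᶠ k in atTop, 0 < a k := by
  rcases hp with hc | ⟨rfl, hs⟩
  · exact h.tendsto.eventually_const_lt hc
  · have h1 := h.tendsto'.eventually_const_lt hs
    refine h1.mono fun k hk => ?_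
    have e1 : (0 : ℝ) < (k : ℝ) + 2 := by positivity
    exact (pos_iff_pos_of_mul_pos hk).1 e1

lemma HasGerm.neg {a : ℕ → ℝ} {c α β : ℝ} (h : HasGerm a c α β) :
    HasGerm (fun k => - a k) (-c) (-α) (-β) := by
  obtain ⟨M, hM⟩ := h
  refine ⟨M, fun k hk => ?_⟩
  show - a k = _
  rw [hM k hk]; ring

lemma HasGerm.add {a b : ℕ → ℝ} {c α β c' α' β' : ℝ} (h : HasGerm a c α β)
    (h' : HasGerm b c' α' β') :
    HasGerm (fun k => a k + b k) (c + c') (α + α') (β + β') := by
  obtain ⟨M, hM⟩ := h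
  obtain ⟨M', hM'⟩ := h'
  refine ⟨max M M', fun k hk => ?_⟩
  show a k + b k = _
  rw [hM k (le_trans (le_max_left _ _) hk), hM' k (le_trans (le_max_right _ _) hk)]; ring

lemma HasGerm.congr {a b : ℕ → ℝ} {c α β : ℝ} (h : HasGerm a c α β)
    (hab : ∀ᶠ k in atTop, b k = a k) : HasGerm b c α β := by
  obtain ⟨M, hM⟩ := h
  obtain ⟨M', hM'⟩ := eventually_atTop.1 hab
  refine ⟨max M M', fun k hk => ?_⟩
  rw [hM' k (le_trans (le_max_right _ _) hk), hM k (le_trans (le_max_left _ _) hk)]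

lemma hasGerm_zero : HasGerm (fun _ => 0) 0 0 0 := ⟨0, fun k _ => by simp⟩

/-- Domination for sequences with germs. -/
lemma HasGerm.dominated {a b : ℕ → ℝ} {c α β c' α' β' : ℝ} (h : HasGerm a c α β)
    (h' : HasGerm b c' α' β') (ha : ∀ k, 0 ≤ a k) (hb : ∀ k, 0 ≤ b k)
    (hab : ∀ k, b k = 0 → a k = 0) (hc : c' = 0 → c = 0)
    (hnd : c' ≠ 0 ∨ α' + β' ≠ 0 ∨ (c' = 0 ∧ α' = 0 ∧ β' = 0)) :
    ∃ K : ℝ, ∀ k, a k ≤ K * b k := by
  have key : a =O[atTop] b := by
    by_cases hc' : c' = 0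
    · subst hc'
      have hc0 := hc rfl
      subst hc0
      by_cases hs : α' + β' = 0
      · have hz : α' = 0 ∧ β' = 0 := by
          rcases hnd with h1 | h1 | h1
          · exact absurd rfl h1
          · exact absurd hs h1
          · exact h1.2
        obtain ⟨M, hM⟩ := h'
        refine Asymptotics.IsBigO.of_bound 0 (eventually_atTop.2 ⟨M, fun k hk => ?_⟩)
        have h1 : b k = 0 := by rw [hM k hk, hz.1, hz.2]; simp
        simp [hab k h1]
      · refine Asymptotics.isBigO_of_div_tendsto_nhds (Eventually.of_forall hab)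
          ((α + β) / (α' + β')) ?_
        refine (h.tendsto'.div h'.tendsto' hs).congr fun k => ?_
        have e1 : (k : ℝ) + 2 ≠ 0 := by positivity
        exact mul_div_mul_left _ _ e1
    · refine Asymptotics.isBigO_of_div_tendsto_nhds (Eventually.of_forall hab) (c / c') ?_
      exact h.tendsto.div h'.tendsto hc'
  obtain ⟨C, hC⟩ := (Asymptotics.isBigO_nat_atTop_iff hab).1 key
  refine ⟨C, fun k => ?_⟩
  have := hC k
  rwa [Real.norm_of_nonneg (ha k), Real.norm_of_nonneg (hb k)] at this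

lemma int_sqrt_eq_zero {m n : ℤ} (h : (m : ℝ) + n * √2 = 0) : m = 0 ∧ n = 0 := by
  by_cases hn : n = 0
  · subst hn
    simp at h
    exact ⟨h, rfl⟩
  · exfalso
    have hirr := irrational_sqrt_two
    apply hirr
    refine ⟨(-m : ℚ) / n, ?_⟩
    have hn' : (n : ℝ) ≠ 0 := by exact_mod_cast hn
    push_cast
    field_simp
    linarith

variable {X : Type}

/-- The set of coordinate functions is finite. -/
lemma Supp.finite_range {κ : Cardinal.{0}} {R : Type} {U : X → X → Option ℕ → R}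
    (h : Supp κ U) {d : R} (hd : ∀ x l, U x x l = d) (hs : ∀ x y, U x y none = U y x none) :
    {f | ∃ x y, f = U x y}.Finite := by
  classical
  obtain ⟨N, Y, hN, _, hU⟩ := h
  obtain ⟨c, hc⟩ := hU.c1
  have f1 : (⋃ x ∈ N, {f | ∃ y, y ∉ N ∧ f = U x y}).Finite :=
    hN.biUnion fun x hx => hU.c3 x hx
  have f2 := f1.image (fun (f : Option ℕ → R) (l : Option ℕ) => match l with
    | none => f none
    | some l => f (some (l + 1)))
  have f3 := (hN.prod hN).image (fun p : X × X => U p.1 p.2)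
  refine (((Set.finite_singleton (fun _ : Option ℕ => d)).union
    (Set.finite_singleton (fun _ : Option ℕ => c))).union (f1.union (f2.union f3))).subset ?_
  rintro f ⟨x, y, rfl⟩
  by_cases hxy : x = y
  · subst hxy
    exact Or.inl (Or.inl (funext fun l => hd x l))
  by_cases hx : x ∈ N
  · by_cases hy : y ∈ N
    · exact Or.inr (Or.inr (Or.inr ⟨(x, y), ⟨hx, hy⟩, rfl⟩))
    · refine Or.inr (Or.inl ?_)
      simp only [Set.mem_iUnion]
      exact ⟨x, hx, y, hy, rfl⟩
  · by_cases hy : y ∈ N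
    · refine Or.inr (Or.inr (Or.inl ⟨U y x, ?_, ?_⟩))
      · simp only [Set.mem_iUnion]
        exact ⟨y, hy, x, hx, rfl⟩
      · funext l
        cases l with
        | none => exact hs y x
        | some l => exact (hU.c2 y hy x hx l).symm
    · exact Or.inl (Or.inr (funext fun l => hc x hx y hy hxy l))

end

end Pool.Agent.E8helper8.LG
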