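import Pool.Agent.E8helper8.LG.Non

/-!
Principal ideals of an Abelian lattice-ordered group.
-/

namespace Pool.Agent.E8helper8.LG

open Cardinal

variable {G : Type} [AddCommGroup G] [Lattice G]

lemma LIdeal.ext' {I J : LIdeal G} (h : I.carrier = J.carrier) : I = J := by
  cases I; cases J; cases h; rfl

variable [IsOrderedAddMonoid G]

/-- The principal ideal generated by `a`. -/
def prin (a : G) : LIdeal G where
  carrier := {x | ∃ n : ℕ, |x| ≤ n • |a|}
  zero_mem := ⟨0, by simp⟩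
  add_mem := by
    rintro x y ⟨n, hn⟩ ⟨m, hm⟩
    exact ⟨n + m, (abs_add_le x y).trans (by rw [add_nsmul]; exact add_le_add hn hm)⟩
  neg_mem := by
    rintro x ⟨n, hn⟩
    exact ⟨n, by rwa [abs_neg]⟩
  sup_mem := by
    rintro x y ⟨n, hn⟩ ⟨m, hm⟩
    refine ⟨n + m, ?_⟩
    rw [add_nsmul]
    refine le_trans ?_ (add_le_add hn hm)
    rw [abs_le']
    constructor
    · refine sup_le ?_ ?_
      · exact (le_abs_self x).trans (le_add_of_nonneg_right (abs_nonneg y))
      · exact (le_abs_self y).trans (le_add_of_nonneg_left (abs_nonneg x))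
    · rw [neg_sup]
      exact inf_le_left.trans ((neg_le_abs x).trans (le_add_of_nonneg_right (abs_nonneg y)))
  inf_mem := by
    rintro x y ⟨n, hn⟩ ⟨m, hm⟩
    refine ⟨n + m, ?_⟩
    rw [add_nsmul]
    refine le_trans ?_ (add_le_add hn hm)
    rw [abs_le']
    constructor
    · exact inf_le_left.trans ((le_abs_self x).trans (le_add_of_nonneg_right (abs_nonneg y)))
    · rw [neg_inf]
      refine sup_le ?_ ?_
      · exact (neg_le_abs x).trans (le_add_of_nonneg_right (abs_nonneg y))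
      · exact (neg_le_abs y).trans (le_add_of_nonneg_left (abs_nonneg x))
  convex := by
    rintro x y z ⟨n, hn⟩ ⟨m, hm⟩ hxy hyz
    refine ⟨n + m, ?_⟩
    rw [add_nsmul]
    refine le_trans ?_ (add_le_add hn hm)
    rw [abs_le']
    constructor
    · exact hyz.trans ((le_abs_self z).trans (le_add_of_nonneg_left (abs_nonneg x)))
    · exact (neg_le_neg hxy).trans ((neg_le_abs x).trans (le_add_of_nonneg_right (abs_nonneg z)))

lemma mem_prin {a x : G} : x ∈ (prin a).carrier ↔ ∃ n : ℕ, |x| ≤ n • |a| := Iff.rfl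

lemma self_mem_prin (a : G) : a ∈ (prin a).carrier := ⟨1, by simp⟩

lemma LIdeal.nsmul_mem (I : LIdeal G) {a : G} (ha : a ∈ I.carrier) (n : ℕ) :
    n • a ∈ I.carrier := by
  induction n with
  | zero => simpa using I.zero_mem
  | succ n ih => rw [succ_nsmul]; exact I.add_mem ih ha

lemma LIdeal.abs_mem (I : LIdeal G) {a : G} (ha : a ∈ I.carrier) : |a| ∈ I.carrier :=
  I.sup_mem ha (I.neg_mem ha)

lemma prin_le_of_mem {I : LIdeal G} {a : G} (ha : a ∈ I.carrier) :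
    (prin a).carrier ⊆ I.carrier := by
  rintro x ⟨n, hn⟩
  have h1 : n • |a| ∈ I.carrier := I.nsmul_mem (I.abs_mem ha) n
  refine I.convex (I.neg_mem h1) h1 ?_ ((le_abs_self x).trans hn)
  exact neg_le.1 ((neg_le_abs x).trans hn)

lemma prin_FG (a : G) : (prin a).FG :=
  ⟨{a}, Set.finite_singleton a, by simpa using self_mem_prin a,
    fun J hJ => prin_le_of_mem (hJ rfl)⟩

lemma FG_iff {I : LIdeal G} (h : I.FG) : ∃ a : G, I = prin a := by
  classical
  obtain ⟨S, hS, hSI, hmin⟩ := h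
  have hsum : ∀ T : Finset G, (∀ t ∈ T, t ∈ I.carrier) → (∑ t ∈ T, |t|) ∈ I.carrier := by
    intro T
    induction T using Finset.induction_on with
    | empty => intro _; simpa using I.zero_mem
    | insert a T ha ih =>
      intro hT
      rw [Finset.sum_insert ha]
      exact I.add_mem (I.abs_mem (hT a (Finset.mem_insert_self _ _)))
        (ih fun t ht => hT t (Finset.mem_insert_of_mem ht))
  refine ⟨∑ t ∈ hS.toFinset, |t|, LIdeal.ext' (Set.Subset.antisymm ?_ ?_)⟩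
  · apply hmin
    intro s hs
    refine ⟨1, ?_⟩
    rw [one_nsmul]
    refine le_trans ?_ (le_abs_self _)
    exact Finset.single_le_sum (f := fun t => |t|) (fun t _ => abs_nonneg t) (hS.mem_toFinset.2 hs)
  · exact prin_le_of_mem (hsum _ fun t ht => hSI (hS.mem_toFinset.1 ht))

/-- The principal ideal as a finitely generated ideal. -/
def pr (a : G) : IdC G := ⟨prin a, prin_FG a⟩

lemma pr_surj (I : IdC G) : ∃ a : G, pr a = I := by
  obtain ⟨a, ha⟩ := FG_iff I.2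
  exact ⟨a, Subtype.ext ha.symm⟩

lemma pr_le_pr {a b : G} : pr a ≤ pr b ↔ ∃ n : ℕ, |a| ≤ n • |b| := by
  constructor
  · intro h
    exact h (self_mem_prin a)
  · intro h
    exact prin_le_of_mem (I := prin b) h

lemma IdC.antisymm {I J : IdC G} (h : I ≤ J) (h' : J ≤ I) : I = J :=
  Subtype.ext (LIdeal.ext' (Set.Subset.antisymm h h'))

/-- A surjection with the right comparison property yields an isomorphism. -/
lemma exists_orderIso {M : Type} [PartialOrder M] (μ : G → M) (hμ : Function.Surjective μ)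
    (hle : ∀ g h, μ g ≤ μ h ↔ ∃ n : ℕ, |g| ≤ n • |h|) : Nonempty (M ≃o IdC G) := by
  choose s hs using hμ
  have hle' : ∀ m m', pr (s m) ≤ pr (s m') ↔ m ≤ m' := by
    intro m m'
    rw [pr_le_pr, ← hle, hs, hs]
  refine ⟨⟨Equiv.ofBijective (fun m => pr (s m)) ⟨?_, ?_⟩, fun {m m'} => hle' m m'⟩⟩
  · intro m m' h
    have h' : pr (s m) = pr (s m') := h
    apply le_antisymm
    · rw [← hle', h']; exact fun _ hx => hx
    · rw [← hle', h']; exact fun _ hx => hx
  · intro I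
    obtain ⟨a, rfl⟩ := pr_surj I
    refine ⟨μ a, IdC.antisymm ?_ ?_⟩
    · show pr (s (μ a)) ≤ pr a
      rw [pr_le_pr, ← hle, hs]
    · show pr a ≤ pr (s (μ a))
      rw [pr_le_pr, ← hle, hs]

lemma add_inf_le {a b c : G} (ha : 0 ≤ a) (hb : 0 ≤ b) (hc : 0 ≤ c) :
    (a + b) ⊓ c ≤ (a ⊓ c) + (b ⊓ c) := by
  rw [inf_add, add_inf, add_inf]
  refine le_inf (le_inf inf_le_left ?_) (le_inf ?_ ?_)
  · exact inf_le_right.trans (le_add_of_nonneg_left ha)
  · exact inf_le_right.trans (le_add_of_nonneg_right hb)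
  · exact inf_le_right.trans (le_add_of_nonneg_right hc)

lemma nsmul_inf_le {a c : G} (ha : 0 ≤ a) (hc : 0 ≤ c) (n : ℕ) :
    (n • a) ⊓ c ≤ n • (a ⊓ c) := by
  induction n with
  | zero => simp
  | succ n ih =>
    rw [succ_nsmul, succ_nsmul]
    exact (add_inf_le (nsmul_nonneg ha n) ha hc).trans (by gcongr)

lemma le_nsmul_inf {p a c : G} (ha : 0 ≤ a) (hc : 0 ≤ c) {n m : ℕ}
    (h1 : p ≤ n • a) (h2 : p ≤ m • c) : p ≤ (n * m) • (a ⊓ c) := by
  refine (le_inf h1 h2).trans ((nsmul_inf_le ha (nsmul_nonneg hc m) n).trans ?_)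
  rw [mul_comm, mul_nsmul]
  gcongr
  rw [inf_comm, inf_comm a c]
  exact nsmul_inf_le hc ha m

/-- A representation by a group with order unit gives the data used for the contradiction. -/
theorem Val.nonempty {κ : Cardinal.{0}} [Fact (ℵ₀ ≤ κ)] {X : Type} {u : G} (hu : 0 ≤ u)
    (hunit : ∀ x : G, ∃ n : ℕ, x ≤ n • u) (e : D κ X ≃o IdC G) :
    Nonempty (Val κ X u) := by
  have hle : ∀ g h : G, e.symm (pr g) ≤ e.symm (pr h) ↔ ∃ n : ℕ, |g| ≤ n • |h| := by
    intro g h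
    rw [OrderIso.le_iff_le, pr_le_pr]
  have hle' : ∀ {g h : G}, 0 ≤ g → 0 ≤ h → (e.symm (pr g) ≤ e.symm (pr h) ↔
      ∃ n : ℕ, g ≤ n • h) := by
    intro g h hg hh
    rw [hle, abs_of_nonneg hg, abs_of_nonneg hh]
  have hadd : ∀ g h : G, 0 ≤ g → 0 ≤ h → e.symm (pr (g + h)) ≤
      e.symm (pr g) ⊔ e.symm (pr h) := by
    intro g h hg hh
    obtain ⟨k, hk⟩ := pr_surj (e (e.symm (pr g) ⊔ e.symm (pr h)))
    have hk' : e.symm (pr |k|) = e.symm (pr g) ⊔ e.symm (pr h) := by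
      have h1 : pr |k| = pr k := IdC.antisymm (pr_le_pr.2 ⟨1, by simp⟩) (pr_le_pr.2 ⟨1, by simp⟩)
      rw [h1, hk, OrderIso.symm_apply_apply]
    rw [← hk', hle' (add_nonneg hg hh) (abs_nonneg k)]
    obtain ⟨n, hn⟩ := (hle' hg (abs_nonneg k)).1 (by rw [hk']; exact le_sup_left)
    obtain ⟨m, hm⟩ := (hle' hh (abs_nonneg k)).1 (by rw [hk']; exact le_sup_right)
    exact ⟨n + m, by rw [add_nsmul]; exact add_le_add hn hm⟩
  have hinf : ∀ g h : G, 0 ≤ g → 0 ≤ h → e.symm (pr g) ⊓ e.symm (pr h) ≤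
      e.symm (pr (g ⊓ h)) := by
    intro g h hg hh
    obtain ⟨k, hk⟩ := pr_surj (e (e.symm (pr g) ⊓ e.symm (pr h)))
    have hk' : e.symm (pr |k|) = e.symm (pr g) ⊓ e.symm (pr h) := by
      have h1 : pr |k| = pr k := IdC.antisymm (pr_le_pr.2 ⟨1, by simp⟩) (pr_le_pr.2 ⟨1, by simp⟩)
      rw [h1, hk, OrderIso.symm_apply_apply]
    rw [← hk', hle' (abs_nonneg k) (le_inf hg hh)]
    obtain ⟨n, hn⟩ := (hle' (abs_nonneg k) hg).1 (by rw [hk']; exact inf_le_left)
    obtain ⟨m, hm⟩ := (hle' (abs_nonneg k) hh).1 (by rw [hk']; exact inf_le_right)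
    exact ⟨n * m, le_nsmul_inf hg hh hn hm⟩
  have hsurj : ∀ U, IsElt κ U → ∃ g : G, 0 ≤ g ∧ (e.symm (pr g)).1 = U := by
    intro U hU
    obtain ⟨k, hk⟩ := pr_surj (e ⟨U, hU⟩)
    refine ⟨|k|, abs_nonneg k, ?_⟩
    have h1 : pr |k| = pr k := IdC.antisymm (pr_le_pr.2 ⟨1, by simp⟩) (pr_le_pr.2 ⟨1, by simp⟩)
    rw [h1, hk, OrderIso.symm_apply_apply]
  refine ⟨⟨fun g => (e.symm (pr g)).1, fun g => (e.symm (pr g)).2, ?_, ?_, ?_, hsurj, ?_, ?_, hu,
    ?_⟩⟩
  · intro g h n hg hh hgh x y l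
    exact (hle' hg hh).2 ⟨n, hgh⟩ x y l
  · intro g h hg hh x y l hc
    exact hadd g h hg hh x y l hc
  · intro g h hg hh x y l hc hc'
    exact hinf g h hg hh x y l ⟨hc, hc'⟩
  · intro g h hg hh hgh
    exact (hle' hg hh).1 (fun x y l hc => hgh x y l hc)
  · intro x y l hc
    -- compare with the empty set
    have hbot : IsElt κ (fun (_ _ : X) (_ : Option ℕ) => False) := by
      refine ⟨fun _ _ h => h, fun _ _ h => h, fun _ _ _ => ⟨0, Or.inr ⟨fun _ _ => ⟨id, id⟩, id⟩⟩,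
        ∅, ∅, Set.finite_empty, by simp, ⟨False, fun _ _ _ _ _ _ => rfl⟩, ?_, ?_, ?_⟩
      · intro x hx; exact hx.elim
      · intro x hx; exact hx.elim
      · intro x hx; exact hx.elim
    obtain ⟨g, hg, hg'⟩ := hsurj _ hbot
    have h1 := (hle' le_rfl hg).2 ⟨1, by simpa using hg⟩ x y l hc
    rw [hg'] at h1
    exact h1
  · intro x y l hxy
    obtain ⟨g, hg, hg'⟩ := hsurj _ (isElt_top κ)
    obtain ⟨n, hn⟩ := hunit g
    refine (hle' hg hu).2 ⟨n, hn⟩ x y l ?_
    rw [hg']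
    exact hxy

/-- The lattice is not representable by any group with order unit when `X` is very large. -/
theorem not_unitRepresentable {κ : Cardinal.{0}} [Fact (ℵ₀ ≤ κ)] {X : Type}
    (hκ : 2 ^ ℵ₀ ≤ κ) (hX : Order.succ κ < #X) : ¬ UnitRepresentable (D κ X) := by
  rintro ⟨G, _, _, _, ⟨u, hu, hu'⟩, ⟨e⟩⟩
  obtain ⟨V⟩ := Val.nonempty hu (fun x => (hu' x).imp fun n h => h.2) e
  exact V.false hκ hX

end Pool.Agent.E8helper8.LG
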