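import Pool.Agent.E8helper8.LG.Defs

/-!
The lattice `D κ X` and its basic properties.
-/

namespace Pool.Agent.E8helper8.LG

open Cardinal

variable {X : Type} {R R' R'' : Type}

/-- The support condition with finite part `N` and small exceptional part `Y`. -/
structure SuppBy (N Y : Set X) (U : X → X → Option ℕ → R) : Prop where
  c1 : ∃ c, ∀ x, x ∉ N → ∀ y, y ∉ N → x ≠ y → ∀ l, U x y l = c
  c2 : ∀ x, x ∈ N → ∀ y, y ∉ N → ∀ l : ℕ, U y x (some l) = U x y (some (l + 1))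
  c3 : ∀ x, x ∈ N → {f | ∃ y, y ∉ N ∧ f = U x y}.Finite
  c4 : ∀ x, x ∈ N → ∀ y, y ∉ N → y ∉ Y → ∀ z, z ∉ N → z ∉ Y → U x y = U x z

lemma SuppBy.mono {N Y N' Y' : Set X} {U : X → X → Option ℕ → R} (h : SuppBy N Y U)
    (hN : N ⊆ N') (hY : Y ⊆ Y') : SuppBy N' Y' U := by
  obtain ⟨c, hc⟩ := h.c1
  refine ⟨⟨c, ?_⟩, ?_, ?_, ?_⟩
  · intro x hx y hy hxy l
    exact hc x (fun h => hx (hN h)) y (fun h => hy (hN h)) hxy l
  · intro x hx y hy l
    have hy' : y ∉ N := fun h => hy (hN h)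
    have hne : x ≠ y := by rintro rfl; exact hy hx
    by_cases hxN : x ∈ N
    · exact h.c2 x hxN y hy' l
    · rw [hc x hxN y hy' hne, hc y hy' x hxN hne.symm]
  · intro x hx
    by_cases hxN : x ∈ N
    · refine (h.c3 x hxN).subset ?_
      rintro f ⟨y, hy, rfl⟩
      exact ⟨y, fun h => hy (hN h), rfl⟩
    · refine (Set.finite_singleton (fun _ => c)).subset ?_
      rintro f ⟨y, hy, rfl⟩
      have hne : x ≠ y := by rintro rfl; exact hy hx
      ext l
      exact hc x hxN y (fun h => hy (hN h)) hne l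
  · intro x hx y hy hyY z hz hzY
    have hne : x ≠ y := by rintro rfl; exact hy hx
    have hne' : x ≠ z := by rintro rfl; exact hz hx
    by_cases hxN : x ∈ N
    · exact h.c4 x hxN y (fun h => hy (hN h)) (fun h => hyY (hY h)) z (fun h => hz (hN h))
        (fun h => hzY (hY h))
    · ext l
      rw [hc x hxN y (fun h => hy (hN h)) hne l, hc x hxN z (fun h => hz (hN h)) hne' l]

lemma SuppBy.map₂ {N Y : Set X} {U : X → X → Option ℕ → R} {V : X → X → Option ℕ → R'}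
    (hU : SuppBy N Y U) (hV : SuppBy N Y V) (op : R → R' → R'') :
    SuppBy N Y (fun x y l => op (U x y l) (V x y l)) := by
  obtain ⟨c, hc⟩ := hU.c1
  obtain ⟨d, hd⟩ := hV.c1
  refine ⟨⟨op c d, ?_⟩, ?_, ?_, ?_⟩
  · intro x hx y hy hxy l
    show op _ _ = _
    rw [hc x hx y hy hxy l, hd x hx y hy hxy l]
  · intro x hx y hy l
    show op _ _ = op _ _
    rw [hU.c2 x hx y hy l, hV.c2 x hx y hy l]
  · intro x hx
    refine (Set.Finite.image2 (fun f g => fun l => op (f l) (g l)) (hU.c3 x hx)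
      (hV.c3 x hx)).subset ?_
    rintro f ⟨y, hy, rfl⟩
    exact ⟨U x y, ⟨y, hy, rfl⟩, V x y, ⟨y, hy, rfl⟩, rfl⟩
  · intro x hx y hy hyY z hz hzY
    funext l
    show op _ _ = op _ _
    rw [hU.c4 x hx y hy hyY z hz hzY, hV.c4 x hx y hy hyY z hz hzY]

/-- The support condition relative to the cardinal `κ`. -/
def Supp (κ : Cardinal.{0}) (U : X → X → Option ℕ → R) : Prop :=
  ∃ N Y : Set X, N.Finite ∧ #Y ≤ κ ∧ SuppBy N Y U

lemma Supp.common {κ : Cardinal.{0}} (hκ : ℵ₀ ≤ κ) {U : X → X → Option ℕ → R}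
    {V : X → X → Option ℕ → R'} (hU : Supp κ U) (hV : Supp κ V) :
    ∃ N Y : Set X, N.Finite ∧ #Y ≤ κ ∧ SuppBy N Y U ∧ SuppBy N Y V := by
  obtain ⟨N, Y, hN, hY, h⟩ := hU
  obtain ⟨N', Y', hN', hY', h'⟩ := hV
  refine ⟨N ∪ N', Y ∪ Y', hN.union hN', ?_, h.mono Set.subset_union_left Set.subset_union_left,
    h'.mono Set.subset_union_right Set.subset_union_right⟩
  exact (Cardinal.mk_union_le _ _).trans (Cardinal.add_le_of_le hκ hY hY')

lemma Supp.map₂ {κ : Cardinal.{0}} (hκ : ℵ₀ ≤ κ) {U : X → X → Option ℕ → R}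
    {V : X → X → Option ℕ → R'} (hU : Supp κ U) (hV : Supp κ V) (op : R → R' → R'') :
    Supp κ (fun x y l => op (U x y l) (V x y l)) := by
  obtain ⟨N, Y, hN, hY, h, h'⟩ := hU.common hκ hV
  exact ⟨N, Y, hN, hY, h.map₂ h' op⟩

lemma Supp.map {κ : Cardinal.{0}} {U : X → X → Option ℕ → R}
    (hU : Supp κ U) (op : R → R') :
    Supp κ (fun x y l => op (U x y l)) := by
  obtain ⟨N, Y, hN, hY, h⟩ := hU
  exact ⟨N, Y, hN, hY, h.map₂ h (fun a _ => op a)⟩

/-- The members of the lattice: sets of points of the space. -/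
structure IsElt (κ : Cardinal.{0}) (U : X → X → Option ℕ → Prop) : Prop where
  diag : ∀ x l, ¬ U x x l
  symm : ∀ x y, U x y none → U y x none
  near : ∀ x y, x ≠ y → ∃ M : ℕ, (∀ n, M ≤ n → U x y (some n) ∧ U y x (some n)) ∨
    ((∀ n, M ≤ n → ¬ U x y (some n) ∧ ¬ U y x (some n)) ∧ ¬ U x y none)
  supp : Supp κ U

lemma IsElt.sup {κ : Cardinal.{0}} (hκ : ℵ₀ ≤ κ) {U V : X → X → Option ℕ → Prop}
    (hU : IsElt κ U) (hV : IsElt κ V) : IsElt κ (fun x y l => U x y l ∨ V x y l) := by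
  refine ⟨?_, ?_, ?_, hU.supp.map₂ hκ hV.supp (· ∨ ·)⟩
  · rintro x l (h | h)
    · exact hU.diag x l h
    · exact hV.diag x l h
  · rintro x y (h | h)
    · exact Or.inl (hU.symm x y h)
    · exact Or.inr (hV.symm x y h)
  · intro x y hxy
    obtain ⟨M, hM⟩ := hU.near x y hxy
    obtain ⟨M', hM'⟩ := hV.near x y hxy
    refine ⟨max M M', ?_⟩
    rcases hM with hM | ⟨hM, hO⟩
    · left
      intro n hn
      exact ⟨Or.inl (hM n (le_trans (le_max_left _ _) hn)).1,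
        Or.inl (hM n (le_trans (le_max_left _ _) hn)).2⟩
    rcases hM' with hM' | ⟨hM', hO'⟩
    · left
      intro n hn
      exact ⟨Or.inr (hM' n (le_trans (le_max_right _ _) hn)).1,
        Or.inr (hM' n (le_trans (le_max_right _ _) hn)).2⟩
    right
    refine ⟨fun n hn => ⟨?_, ?_⟩, ?_⟩
    · rintro (h | h)
      · exact (hM n (le_trans (le_max_left _ _) hn)).1 h
      · exact (hM' n (le_trans (le_max_right _ _) hn)).1 h
    · rintro (h | h)
      · exact (hM n (le_trans (le_max_left _ _) hn)).2 h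
      · exact (hM' n (le_trans (le_max_right _ _) hn)).2 h
    · rintro (h | h)
      · exact hO h
      · exact hO' h

lemma IsElt.inf {κ : Cardinal.{0}} (hκ : ℵ₀ ≤ κ) {U V : X → X → Option ℕ → Prop}
    (hU : IsElt κ U) (hV : IsElt κ V) : IsElt κ (fun x y l => U x y l ∧ V x y l) := by
  refine ⟨?_, ?_, ?_, hU.supp.map₂ hκ hV.supp (· ∧ ·)⟩
  · rintro x l ⟨h, _⟩
    exact hU.diag x l h
  · rintro x y ⟨h, h'⟩
    exact ⟨hU.symm x y h, hV.symm x y h'⟩
  · intro x y hxy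
    obtain ⟨M, hM⟩ := hU.near x y hxy
    obtain ⟨M', hM'⟩ := hV.near x y hxy
    refine ⟨max M M', ?_⟩
    rcases hM with hM | ⟨hM, hO⟩
    swap
    · right
      refine ⟨fun n hn => ⟨fun h => ?_, fun h => ?_⟩, fun h => hO h.1⟩
      · exact (hM n (le_trans (le_max_left _ _) hn)).1 h.1
      · exact (hM n (le_trans (le_max_left _ _) hn)).2 h.1
    rcases hM' with hM' | ⟨hM', hO'⟩
    swap
    · right
      refine ⟨fun n hn => ⟨fun h => ?_, fun h => ?_⟩, fun h => hO' h.2⟩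
      · exact (hM' n (le_trans (le_max_right _ _) hn)).1 h.2
      · exact (hM' n (le_trans (le_max_right _ _) hn)).2 h.2
    left
    intro n hn
    exact ⟨⟨(hM n (le_trans (le_max_left _ _) hn)).1, (hM' n (le_trans (le_max_right _ _) hn)).1⟩,
      ⟨(hM n (le_trans (le_max_left _ _) hn)).2, (hM' n (le_trans (le_max_right _ _) hn)).2⟩⟩

/-- The lattice `D κ X`. -/
def D (κ : Cardinal.{0}) [hκ : Fact (ℵ₀ ≤ κ)] (X : Type) :
    Sublattice (X → X → Option ℕ → Prop) where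
  carrier := {U | IsElt κ U}
  supClosed' := fun _ hU _ hV => IsElt.sup hκ.out hU hV
  infClosed' := fun _ hU _ hV => IsElt.inf hκ.out hU hV

lemma mem_D {κ : Cardinal.{0}} [hκ : Fact (ℵ₀ ≤ κ)] {U : X → X → Option ℕ → Prop} :
    U ∈ D κ X ↔ IsElt κ U := Iff.rfl

end Pool.Agent.E8helper8.LG
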