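import Pool.Agent.E8helper8.LG.Lat

/-!
The lattice `D κ X` is not representable by a group with order unit when `X` is very large.
-/

namespace Pool.Agent.E8helper8.LG

open Cardinal Order

variable {X : Type}

/-- A free pair with prescribed equal types. -/
lemma exists_free_pair {κ : Cardinal.{0}} (hκ : ℵ₀ ≤ κ) {T : Type} (hT : #T ≤ κ)
    (hX : succ κ < #X) (τ : X → T) (F : X → Set X) (hF : ∀ x, #(F x) ≤ κ) :
    ∃ x y, x ≠ y ∧ τ x = τ y ∧ x ∉ F y ∧ y ∉ F x := by
  have hκ1 : ℵ₀ ≤ succ κ := hκ.trans (le_succ κ)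
  obtain ⟨t, ht⟩ := Cardinal.infinite_pigeonhole_card τ (succ (succ κ)) (succ_le_of_lt hX)
    (hκ1.trans (le_succ _)) (by
      rw [(Cardinal.isRegular_succ hκ1).cof_ord]
      exact lt_of_le_of_lt hT ((lt_succ κ).trans (lt_succ _)))
  obtain ⟨A, hAZ, hA⟩ := Cardinal.le_mk_iff_exists_subset.1 ((le_succ (succ κ)).trans ht)
  have hU : #(⋃ a : A, F a : Set X) ≤ succ κ := by
    refine (Cardinal.mk_iUnion_le _).trans ?_
    exact (mul_le_mul' hA.le (ciSup_le' fun b : A => (hF b.1).trans (le_succ κ))).trans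
      (Cardinal.mul_eq_self hκ1).le
  have hB : #(A ∪ ⋃ a : A, F a : Set X) ≤ succ κ :=
    (Cardinal.mk_union_le _ _).trans (Cardinal.add_le_of_le hκ1 hA.le hU)
  obtain ⟨y, hyZ, hy⟩ : ∃ y, y ∈ τ ⁻¹' {t} ∧ y ∉ (A ∪ ⋃ a : A, F a : Set X) := by
    by_contra hcon
    push Not at hcon
    have h1 : (τ ⁻¹' {t}) ⊆ (A ∪ ⋃ a : A, F a : Set X) := fun y hy => hcon y hy
    have h2 := ht.trans ((Cardinal.mk_le_mk_of_subset h1).trans hB)
    exact absurd h2 (not_le.mpr (lt_succ _))
  obtain ⟨x, hxA, hx⟩ : ∃ x, x ∈ A ∧ x ∉ F y := by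
    by_contra hcon
    push Not at hcon
    have h1 : A ⊆ F y := fun x hx => hcon x hx
    have h2 := (Cardinal.mk_le_mk_of_subset h1).trans (hF y)
    rw [hA] at h2
    exact absurd h2 (not_le.mpr (lt_succ _))
  refine ⟨x, y, ?_, ?_, hx, ?_⟩
  · rintro rfl
    exact hy (Or.inl hxA)
  · rw [show τ x = t from hAZ hxA, show τ y = t from hyZ]
  · intro h
    exact hy (Or.inr (Set.mem_iUnion.2 ⟨⟨x, hxA⟩, h⟩))

/-- Outside of a small set, membership at the pairs containing `x` depends only on the level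
of `x`. -/
lemma IsElt.section {κ : Cardinal.{0}} (hκ : ℵ₀ ≤ κ) {U : X → X → Option ℕ → Prop}
    (hU : IsElt κ U) (x : X) :
    ∃ (F : Set X) (π : Set ℕ), #F ≤ κ ∧ ∀ y, y ∉ F → ∀ l : ℕ,
      (U x y (some l) ↔ l ∈ π) ∧ (U y x (some l) ↔ l + 1 ∈ π) := by
  obtain ⟨N, Y, hN, hY, hs⟩ := hU.supp
  have hs' : SuppBy (insert x N) Y U := hs.mono (Set.subset_insert _ _) (le_refl Y)
  have hxN : x ∈ insert x N := Set.mem_insert _ _
  have hF : #(insert x N ∪ Y : Set X) ≤ κ := by
    refine (Cardinal.mk_union_le _ _).trans (Cardinal.add_le_of_le hκ ?_ hY)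
    exact ((Set.Finite.lt_aleph0 (hN.insert x)).le).trans hκ
  by_cases hex : ∃ y₀, y₀ ∉ (insert x N ∪ Y : Set X)
  · obtain ⟨y₀, hy₀⟩ := hex
    refine ⟨insert x N ∪ Y, {l | U x y₀ (some l)}, hF, ?_⟩
    intro y hy l
    have h1 : U x y = U x y₀ := hs'.c4 x hxN y (fun h => hy (Or.inl h)) (fun h => hy (Or.inr h))
      y₀ (fun h => hy₀ (Or.inl h)) (fun h => hy₀ (Or.inr h))
    constructor
    · rw [h1]; rfl
    · rw [hs'.c2 x hxN y (fun h => hy (Or.inl h)) l, h1]; rfl
  · push Not at hex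
    exact ⟨_, ∅, hF, fun y hy => absurd (hex y) hy⟩

/-- The set of all points over distinct pairs. -/
lemma isElt_top (κ : Cardinal.{0}) : IsElt κ (fun (x y : X) (_ : Option ℕ) => x ≠ y) := by
  refine ⟨fun x l h => h rfl, fun x y h => h.symm, fun x y h => ⟨0, Or.inl fun n _ =>
    ⟨h, h.symm⟩⟩, ∅, ∅, Set.finite_empty, by simp, ⟨True, ?_⟩, ?_, ?_, ?_⟩
  · intro x _ y _ hxy l
    exact propext ⟨fun _ => trivial, fun _ => hxy⟩
  · intro x hx; exact hx.elim
  · intro x hx; exact hx.elim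
  · intro x hx; exact hx.elim

/-- All finite points of the pairs containing `a`. -/
lemma isElt_a (κ : Cardinal.{0}) (a : X) :
    IsElt κ (fun (x y : X) (l : Option ℕ) => x ≠ y ∧ (x = a ∨ y = a) ∧ l ≠ none) := by
  refine ⟨fun x l h => h.1 rfl, fun x y h => absurd rfl h.2.2, ?_, {a}, ∅, Set.finite_singleton a,
    by simp, ⟨False, ?_⟩, ?_, ?_, ?_⟩
  · intro x y hxy
    by_cases h : x = a ∨ y = a
    · exact ⟨0, Or.inl fun n _ => ⟨⟨hxy, h, by simp⟩, ⟨hxy.symm, h.symm, by simp⟩⟩⟩
    · exact ⟨0, Or.inr ⟨fun n _ => ⟨fun h' => h h'.2.1, fun h' => h h'.2.1.symm⟩,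
        fun h' => h'.2.2 rfl⟩⟩
  · intro x hx y hy _ l
    apply propext
    constructor
    · rintro ⟨_, h | h, _⟩
      · exact hx h
      · exact hy h
    · exact fun h => h.elim
  · rintro x hx y hy l
    have hx' : x = a := hx
    have hy' : y ≠ a := hy
    subst hx'
    apply propext
    constructor
    · intro _; exact ⟨hy'.symm, Or.inl rfl, by simp⟩
    · intro _; exact ⟨hy', Or.inr rfl, by simp⟩
  · rintro x hx
    refine (Set.finite_singleton (fun l : Option ℕ => l ≠ none)).subset ?_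
    rintro f ⟨y, hy, rfl⟩
    have hx' : x = a := hx
    have hy' : y ≠ a := hy
    subst hx'
    refine funext fun l => propext ⟨fun h => h.2.2, fun h => ⟨hy'.symm, Or.inl rfl, h⟩⟩
  · rintro x hx y hy _ z hz _
    have hx' : x = a := hx
    have hy' : y ≠ a := hy
    have hz' : z ≠ a := hz
    subst hx'
    exact funext fun l => propext ⟨fun h => ⟨hz'.symm, Or.inl rfl, h.2.2⟩,
      fun h => ⟨hy'.symm, Or.inl rfl, h.2.2⟩⟩

/-- One isolated point. -/
lemma isElt_pt (κ : Cardinal.{0}) {a b : X} (hab : a ≠ b) (m : ℕ) :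
    IsElt κ (fun (x y : X) (l : Option ℕ) => x = a ∧ y = b ∧ l = some m) := by
  refine ⟨?_, ?_, ?_, {a, b}, ∅, by simp, by simp, ⟨False, ?_⟩, ?_, ?_, ?_⟩
  · rintro x l ⟨h1, h2, _⟩
    exact hab (h1.symm.trans h2)
  · rintro x y ⟨_, _, h⟩
    exact absurd h (by simp)
  · intro x y _
    refine ⟨m + 1, Or.inr ⟨fun n hn => ⟨?_, ?_⟩, ?_⟩⟩
    · rintro ⟨_, _, h⟩
      have : n = m := by simpa using h
      omega
    · rintro ⟨_, _, h⟩
      have : n = m := by simpa using h
      omega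
    · rintro ⟨_, _, h⟩
      exact absurd h (by simp)
  · intro x hx y hy _ l
    exact propext ⟨fun h => hx (by simp [h.1]), fun h => h.elim⟩
  · intro x hx y hy l
    have hy1 : y ≠ a := fun h => hy (by simp [h])
    have hy2 : y ≠ b := fun h => hy (by simp [h])
    exact propext ⟨fun h => absurd h.1 hy1, fun h => absurd h.2.1 hy2⟩
  · intro x hx
    refine (Set.finite_singleton (fun _ : Option ℕ => False)).subset ?_
    rintro f ⟨y, hy, rfl⟩
    have hy2 : y ≠ b := fun h => hy (by simp [h])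
    exact funext fun l => propext ⟨fun h => absurd h.2.1 hy2, fun h => h.elim⟩
  · intro x hx y hy _ z hz _
    have hy2 : y ≠ b := fun h => hy (by simp [h])
    have hz2 : z ≠ b := fun h => hz (by simp [h])
    exact funext fun l => propext ⟨fun h => absurd h.2.1 hy2, fun h => absurd h.2.1 hz2⟩

/-- The complement of one isolated point. -/
lemma isElt_compl_pt (κ : Cardinal.{0}) {a b : X} (hab : a ≠ b) (m : ℕ) :
    IsElt κ (fun (x y : X) (l : Option ℕ) => x ≠ y ∧ ¬ (x = a ∧ y = b ∧ l = some m)) := by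
  refine ⟨?_, ?_, ?_, {a, b}, ∅, by simp, by simp, ⟨True, ?_⟩, ?_, ?_, ?_⟩
  · rintro x l ⟨h1, _⟩
    exact h1 rfl
  · rintro x y ⟨h, _⟩
    exact ⟨h.symm, by simp⟩
  · intro x y hxy
    refine ⟨m + 1, Or.inl fun n hn => ⟨⟨hxy, ?_⟩, ⟨hxy.symm, ?_⟩⟩⟩
    · rintro ⟨_, _, h⟩
      have : n = m := by simpa using h
      omega
    · rintro ⟨_, _, h⟩
      have : n = m := by simpa using h
      omega
  · intro x hx y hy hxy l
    exact propext ⟨fun _ => trivial, fun _ => ⟨hxy, fun h => hx (by simp [h.1])⟩⟩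
  · intro x hx y hy l
    have hy1 : y ≠ a := fun h => hy (by simp [h])
    have hy2 : y ≠ b := fun h => hy (by simp [h])
    have hxy : x ≠ y := by rintro rfl; exact hy hx
    exact propext ⟨fun _ => ⟨hxy, fun h => hy2 h.2.1⟩, fun _ => ⟨hxy.symm, fun h => hy1 h.1⟩⟩
  · intro x hx
    refine (Set.finite_singleton (fun _ : Option ℕ => True)).subset ?_
    rintro f ⟨y, hy, rfl⟩
    have hy2 : y ≠ b := fun h => hy (by simp [h])
    have hxy : x ≠ y := by rintro rfl; exact hy hx
    exact funext fun l => propext ⟨fun _ => trivial, fun _ => ⟨hxy, fun h => hy2 h.2.1⟩⟩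
  · intro x hx y hy _ z hz _
    have hy2 : y ≠ b := fun h => hy (by simp [h])
    have hz2 : z ≠ b := fun h => hz (by simp [h])
    have hxy : x ≠ y := by rintro rfl; exact hy hx
    have hxz : x ≠ z := by rintro rfl; exact hz hx
    exact funext fun l => propext ⟨fun _ => ⟨hxz, fun h => hz2 h.2.1⟩,
      fun _ => ⟨hxy, fun h => hy2 h.2.1⟩⟩

section group

variable {G : Type} [AddCommGroup G] [Lattice G] [IsOrderedAddMonoid G]

/-- A representation of the lattice by a group with order unit `u`. -/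
structure Val (κ : Cardinal.{0}) (X : Type) (u : G) where
  C : G → X → X → Option ℕ → Prop
  elt : ∀ g, IsElt κ (C g)
  mono : ∀ (g h : G) (n : ℕ), 0 ≤ g → 0 ≤ h → g ≤ n • h → ∀ x y l, C g x y l → C h x y l
  add : ∀ (g h : G), 0 ≤ g → 0 ≤ h → ∀ x y l, C (g + h) x y l → C g x y l ∨ C h x y l
  inf : ∀ (g h : G), 0 ≤ g → 0 ≤ h → ∀ x y l, C g x y l → C h x y l → C (g ⊓ h) x y l
  surj : ∀ U, IsElt κ U → ∃ g, 0 ≤ g ∧ C g = U
  ofSub : ∀ (g h : G), 0 ≤ g → 0 ≤ h → (∀ x y l, C g x y l → C h x y l) → ∃ n : ℕ, g ≤ n • h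
  zero : ∀ x y l, ¬ C 0 x y l
  unit_nonneg : 0 ≤ u
  unit : ∀ x y l, x ≠ y → C u x y l

/-- An isolated point in the support of `g` is in the support of `(n g - u)⁺` for some `n`. -/
lemma Val.atom {κ : Cardinal.{0}} {u : G} (V : Val κ X u) {a b : X} (hab : a ≠ b) (m : ℕ)
    {g : G} (hg : 0 ≤ g) (hC : V.C g a b (some m)) :
    ∃ n : ℕ, V.C (n • g - u)⁺ a b (some m) := by
  obtain ⟨h, hh, hh'⟩ := V.surj _ (isElt_pt κ hab m)
  obtain ⟨k, hk, hk'⟩ := V.surj _ (isElt_compl_pt κ hab m)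
  obtain ⟨i, hi⟩ := V.ofSub h g hh hg (by
    intro x y l hx
    rw [hh'] at hx
    obtain ⟨rfl, rfl, rfl⟩ := hx
    exact hC)
  have hhk : ∀ x y l, V.C u x y l → V.C (h + k) x y l := by
    intro x y l hx
    have hxy : x ≠ y := by
      rintro rfl
      exact (V.elt u).diag _ _ hx
    by_cases hp : x = a ∧ y = b ∧ l = some m
    · refine V.mono h (h + k) 1 hh (add_nonneg hh hk) (by simpa using hk) x y l ?_
      rw [hh']; exact hp
    · refine V.mono k (h + k) 1 hk (add_nonneg hh hk) (by simpa using hh) x y l ?_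
      rw [hk']; exact ⟨hxy, hp⟩
  obtain ⟨j, hj⟩ := V.ofSub u (h + k) V.unit_nonneg (add_nonneg hh hk) hhk
  -- the point is not in the support of `(u - K g)⁺`
  have h1 : u ≤ (j * i) • g + j • k := by
    refine hj.trans ?_
    rw [nsmul_add, mul_comm j i, mul_nsmul]
    gcongr
  have h2 : (u - (j * i) • g)⁺ ≤ j • k := by
    rw [posPart_def]
    refine sup_le ?_ (nsmul_nonneg hk _)
    rw [sub_le_iff_le_add']
    exact h1
  have h3 : ¬ V.C (u - (j * i) • g)⁺ a b (some m) := by
    intro hc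
    have := V.mono _ k j (posPart_nonneg _) hk h2 a b (some m) hc
    rw [hk'] at this
    exact this.2 ⟨rfl, rfl, rfl⟩
  have h4 : g ≤ 1 • ((((2 * (j * i) + 1) • g - u)⁺) + (u - (j * i) • g)⁺) := by
    rw [one_nsmul]
    have e1 := le_posPart ((2 * (j * i) + 1) • g - u)
    have e2 := le_posPart (u - (j * i) • g)
    refine le_trans ?_ (add_le_add e1 e2)
    have e3 : (2 * (j * i) + 1) • g - u + (u - (j * i) • g) = (j * i) • g + g := by
      rw [add_nsmul, two_mul, add_nsmul, one_nsmul]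
      abel
    rw [e3]
    exact le_add_of_nonneg_left (nsmul_nonneg hg _)
  have h5 := V.mono _ _ 1 hg (add_nonneg (posPart_nonneg _) (posPart_nonneg _)) h4 a b _ hC
  rcases V.add _ _ (posPart_nonneg _) (posPart_nonneg _) a b _ h5 with h6 | h6
  · exact ⟨_, h6⟩
  · exact absurd h6 h3

/-- There is no representation when `X` is very large. -/
theorem Val.false {κ : Cardinal.{0}} (hκ : 2 ^ ℵ₀ ≤ κ) (hX : succ κ < #X) {u : G}
    (V : Val κ X u) : False := by
  have hκ' : ℵ₀ ≤ κ := (Cardinal.cantor ℵ₀).le.trans hκ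
  choose g hg hga using fun x => V.surj _ (isElt_a κ x)
  choose F π hF hπ using fun (x : X) (n : ℕ) => IsElt.section hκ' (V.elt (n • g x - u)⁺) x
  have hT : #(ℕ → Set ℕ) ≤ κ := by
    refine le_trans (le_of_eq ?_) hκ
    simp
  obtain ⟨x, y, hxy, hτ, hx, hy⟩ := exists_free_pair hκ' hT hX π (fun x => ⋃ n, F x n) (by
    intro x
    have := Cardinal.mk_iUnion_le_sum_mk (f := fun n => F x n)
    refine this.trans ((Cardinal.sum_le_mk_mul_iSup _).trans ?_)
    refine (mul_le_mul' (?_ : _ ≤ κ) (ciSup_le' fun n => hF x n)).trans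
      (Cardinal.mul_eq_self hκ').le
    simpa using hκ')
  simp only [Set.mem_iUnion, not_exists] at hx hy
  -- it suffices to treat a pair where `(g x - g y)⁺` is eventually absent
  have main : ∀ x y, x ≠ y → π x = π y → (∀ n, x ∉ F y n) → (∀ n, y ∉ F x n) →
      (∃ M, ∀ l : ℕ, M ≤ l → ¬ V.C (g x - g y)⁺ x y (some l) ∧ ¬ V.C (g x - g y)⁺ y x (some l)) →
      False := by
    intro x y hxy hτ hx hy ⟨M, hM⟩
    -- inclusion of supports
    have hinc : ∀ (n : ℕ) a b l, V.C (n • g x - u)⁺ a b l → V.C (n • g y - u)⁺ a b l ∨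
        V.C (g x - g y)⁺ a b l := by
      intro n a b l hc
      have h1 : (n • g x - u)⁺ ≤ 1 • ((n • g y - u)⁺ + n • (g x - g y)⁺) := by
        rw [one_nsmul, posPart_def (n • g x - u)]
        refine sup_le ?_ (add_nonneg (posPart_nonneg _) (nsmul_nonneg (posPart_nonneg _) _))
        calc n • g x - u = (n • g y - u) + n • (g x - g y) := by
              rw [nsmul_sub]; abel
          _ ≤ _ := by
              gcongr
              · exact le_posPart _
              · exact le_posPart _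
      have h2 := V.mono _ _ 1 (posPart_nonneg _) (add_nonneg (posPart_nonneg _)
        (nsmul_nonneg (posPart_nonneg _) _)) h1 a b l hc
      rcases V.add _ _ (posPart_nonneg _) (nsmul_nonneg (posPart_nonneg _) _) a b l h2 with h3 | h3
      · exact Or.inl h3
      · exact Or.inr (V.mono _ _ n (nsmul_nonneg (posPart_nonneg _) _) (posPart_nonneg _) le_rfl
          a b l h3)
    have hstep : ∀ (n l : ℕ), M ≤ l → (l ∈ π x n ↔ l + 1 ∈ π x n) := by
      intro n l hl
      constructor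
      · intro h
        have h1 := ((hπ x n y (hy n) l).1).2 h
        rcases hinc n x y _ h1 with h2 | h2
        · have h3 := ((hπ y n x (hx n) l).2).1 h2
          rwa [← hτ] at h3
        · exact absurd h2 (hM l hl).1
      · intro h
        have h1 := ((hπ x n y (hy n) l).2).2 h
        rcases hinc n y x _ h1 with h2 | h2
        · have h3 := ((hπ y n x (hx n) l).1).1 h2
          rwa [← hτ] at h3
        · exact absurd h2 (hM l hl).2
    obtain ⟨n, hn⟩ := V.atom hxy M (hg x) (by rw [hga x]; exact ⟨hxy, Or.inl rfl, by simp⟩)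
    have hall : ∀ k, M + k ∈ π x n := by
      intro k
      induction k with
      | zero => exact ((hπ x n y (hy n) M).1).1 hn
      | succ k ih => exact (hstep n (M + k) (by omega)).1 ih
    -- the disjoint support containing the limit point
    have hO : V.C (u - n • g x)⁺ x y none := by
      have h1 : u ≤ 1 • ((u - n • g x)⁺ + n • g x) := by
        rw [one_nsmul, ← sub_le_iff_le_add]
        exact le_posPart _
      have h2 := V.mono _ _ 1 V.unit_nonneg (add_nonneg (posPart_nonneg _)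
        (nsmul_nonneg (hg x) _)) h1 x y none (V.unit x y none hxy)
      rcases V.add _ _ (posPart_nonneg _) (nsmul_nonneg (hg x) _) x y _ h2 with h3 | h3
      · exact h3
      · have h4 := V.mono _ _ n (nsmul_nonneg (hg x) _) (hg x) le_rfl x y none h3
        rw [hga x] at h4
        exact absurd rfl h4.2.2
    obtain ⟨M', hM'⟩ := (V.elt (u - n • g x)⁺).near x y hxy
    rcases hM' with hM' | ⟨_, hM'⟩
    · have h1 := (hM' (M + M') (by omega)).1
      have h2 := ((hπ x n y (hy n) (M + M')).1).2 (hall M')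
      have h3 := V.inf _ _ (posPart_nonneg _) (posPart_nonneg _) x y _ h2 h1
      have h4 : (n • g x - u)⁺ ⊓ (u - n • g x)⁺ = 0 := by
        have := posPart_inf_negPart_eq_zero (n • g x - u)
        rwa [← posPart_neg, neg_sub] at this
      rw [h4] at h3
      exact V.zero _ _ _ h3
    · exact hM' hO
  obtain ⟨M, hM⟩ := (V.elt (g x - g y)⁺).near x y hxy
  rcases hM with hM | ⟨hM, _⟩
  · -- then `(g y - g x)⁺` is eventually absent
    refine main y x hxy.symm hτ.symm hy hx ⟨M, fun l hl => ?_⟩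
    have h4 : (g x - g y)⁺ ⊓ (g y - g x)⁺ = 0 := by
      have := posPart_inf_negPart_eq_zero (g x - g y)
      rwa [← posPart_neg, neg_sub] at this
    constructor
    · intro h
      have h3 := V.inf _ _ (posPart_nonneg _) (posPart_nonneg _) y x _ (hM l hl).2 h
      rw [h4] at h3
      exact V.zero _ _ _ h3
    · intro h
      have h3 := V.inf _ _ (posPart_nonneg _) (posPart_nonneg _) x y _ (hM l hl).1 h
      rw [h4] at h3
      exact V.zero _ _ _ h3
  · exact main x y hxy hτ hx hy ⟨M, hM⟩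

end group

end Pool.Agent.E8helper8.LG
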