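import Pool.Agent.E8helper8.LG.Germ

/-!
The lattice `D κ X` is representable by an Archimedean group with order unit when `X` is
linearly ordered with small initial segments.
-/

namespace Pool.Agent.E8helper8.LG

open Cardinal Filter Topology

noncomputable section

variable {X : Type} [LinearOrder X]

/-- The members of the group: real functions on the space. -/
structure IsG (κ : Cardinal.{0}) (g : X → X → Option ℕ → ℝ) : Prop where
  diag : ∀ x l, g x x l = 0
  symm : ∀ x y, g x y none = g y x none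
  germ : ∀ x y, x < y → ∃ m n : ℤ,
    HasGerm (fun k => g x y (some k)) (g x y none) m (n * √2) ∧
    HasGerm (fun k => g y x (some k)) (g x y none) (n * √2) m
  supp : Supp κ g

/-- The germ at any pair, in a form which does not mention the order. -/
lemma IsG.germ' {κ : Cardinal.{0}} {g : X → X → Option ℕ → ℝ} (h : IsG κ g) {x y : X}
    (hxy : x ≠ y) : ∃ α β : ℝ, (α + β = 0 → α = 0 ∧ β = 0) ∧
    HasGerm (fun k => g x y (some k)) (g x y none) α β ∧
    HasGerm (fun k => g y x (some k)) (g x y none) β α := by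
  rcases lt_or_gt_of_ne hxy with hlt | hlt
  · obtain ⟨m, n, h1, h2⟩ := h.germ x y hlt
    refine ⟨m, n * √2, fun h0 => ?_, h1, h2⟩
    obtain ⟨rfl, rfl⟩ := int_sqrt_eq_zero h0
    simp
  · obtain ⟨m, n, h1, h2⟩ := h.germ y x hlt
    rw [h.symm] at h1 h2
    refine ⟨n * √2, m, fun h0 => ?_, h2, h1⟩
    rw [add_comm] at h0
    obtain ⟨rfl, rfl⟩ := int_sqrt_eq_zero h0
    simp

/-- Trichotomy of signs near the limit point. -/
lemma IsG.sign {κ : Cardinal.{0}} {g : X → X → Option ℕ → ℝ} (h : IsG κ g) {x y : X}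
    (hxy : x ≠ y) :
    (0 ≤ g x y none ∧ ∀ᶠ k in atTop, 0 < g x y (some k) ∧ 0 < g y x (some k)) ∨
    (g x y none ≤ 0 ∧ ∀ᶠ k in atTop, g x y (some k) < 0 ∧ g y x (some k) < 0) ∨
    (g x y none = 0 ∧ ∀ᶠ k in atTop, g x y (some k) = 0 ∧ g y x (some k) = 0) := by
  obtain ⟨α, β, hnd, h1, h2⟩ := h.germ' hxy
  have pos : (0 < g x y none ∨ (g x y none = 0 ∧ 0 < α + β)) →
      ∀ᶠ k in atTop, 0 < g x y (some k) ∧ 0 < g y x (some k) := fun hp =>
    (h1.eventually_pos hp).and (h2.eventually_pos (by rwa [add_comm β α]))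
  have neg : (0 < - g x y none ∨ (- g x y none = 0 ∧ 0 < -α + -β)) →
      ∀ᶠ k in atTop, g x y (some k) < 0 ∧ g y x (some k) < 0 := fun hp =>
    ((h1.neg.eventually_pos hp).and (h2.neg.eventually_pos (by rwa [add_comm (-β) (-α)]))).mono
      fun k hk => ⟨by linarith [hk.1], by linarith [hk.2]⟩
  rcases lt_trichotomy (g x y none) 0 with hc | hc | hc
  · exact Or.inr (Or.inl ⟨hc.le, neg (Or.inl (by linarith))⟩)
  · rcases lt_trichotomy (α + β) 0 with hs | hs | hs
    · exact Or.inr (Or.inl ⟨hc.le, neg (Or.inr ⟨by linarith, by linarith⟩)⟩)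
    · refine Or.inr (Or.inr ⟨hc, ?_⟩)
      obtain ⟨rfl, rfl⟩ := hnd hs
      obtain ⟨M, hM⟩ := h1
      obtain ⟨M', hM'⟩ := h2
      refine eventually_atTop.2 ⟨max M M', fun k hk => ⟨?_, ?_⟩⟩
      · have := hM k (le_trans (le_max_left _ _) hk)
        simpa [hc] using this
      · have := hM' k (le_trans (le_max_right _ _) hk)
        simpa [hc] using this
    · exact Or.inl ⟨hc.ge, pos (Or.inr ⟨hc, hs⟩)⟩
  · exact Or.inl ⟨hc.le, pos (Or.inl hc)⟩

lemma IsG.add {κ : Cardinal.{0}} (hκ : ℵ₀ ≤ κ) {g h : X → X → Option ℕ → ℝ} (hg : IsG κ g)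
    (hh : IsG κ h) : IsG κ (g + h) := by
  refine ⟨fun x l => ?_, fun x y => ?_, fun x y hxy => ?_, hg.supp.map₂ hκ hh.supp (· + ·)⟩
  · show g x x l + h x x l = 0
    rw [hg.diag, hh.diag, add_zero]
  · show g x y none + h x y none = g y x none + h y x none
    rw [hg.symm, hh.symm]
  · obtain ⟨m, n, h1, h2⟩ := hg.germ x y hxy
    obtain ⟨m', n', h1', h2'⟩ := hh.germ x y hxy
    refine ⟨m + m', n + n', ?_, ?_⟩
    · have := h1.add h1'
      push_cast
      rw [add_mul]
      exact this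
    · have := h2.add h2'
      push_cast
      rw [add_mul]
      exact this

lemma IsG.neg {κ : Cardinal.{0}} {g : X → X → Option ℕ → ℝ} (hg : IsG κ g) :
    IsG κ (-g) := by
  refine ⟨fun x l => ?_, fun x y => ?_, fun x y hxy => ?_, hg.supp.map (fun r => -r)⟩
  · show - g x x l = 0
    rw [hg.diag, neg_zero]
  · show - g x y none = - g y x none
    rw [hg.symm]
  · obtain ⟨m, n, h1, h2⟩ := hg.germ x y hxy
    refine ⟨-m, -n, ?_, ?_⟩
    · have := h1.neg
      push_cast
      rw [neg_mul]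
      exact this
    · have := h2.neg
      push_cast
      rw [neg_mul]
      exact this

lemma supp_const {κ : Cardinal.{0}} {R : Type} (c : R) :
    Supp κ (fun (_ _ : X) (_ : Option ℕ) => c) := by
  refine ⟨∅, ∅, Set.finite_empty, by simp, ⟨c, fun _ _ _ _ _ _ => rfl⟩, ?_, ?_, ?_⟩
  · intro x hx; exact hx.elim
  · intro x hx; exact hx.elim
  · intro x hx; exact hx.elim

lemma IsG.zero (κ : Cardinal.{0}) : IsG κ (0 : X → X → Option ℕ → ℝ) := by
  refine ⟨fun _ _ => rfl, fun _ _ => rfl, fun x y _ => ⟨0, 0, ?_, ?_⟩, supp_const 0⟩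
  · exact ⟨0, fun k _ => by simp⟩
  · exact ⟨0, fun k _ => by simp⟩

lemma IsG.pos {κ : Cardinal.{0}} {g : X → X → Option ℕ → ℝ} (hg : IsG κ g) :
    IsG κ (g ⊔ 0) := by
  refine ⟨fun x l => ?_, fun x y => ?_, fun x y hxy => ?_, hg.supp.map (fun r => r ⊔ 0)⟩
  · show g x x l ⊔ 0 = 0
    rw [hg.diag, sup_idem]
  · show g x y none ⊔ 0 = g y x none ⊔ 0
    rw [hg.symm]
  · obtain ⟨m, n, h1, h2⟩ := hg.germ x y hxy
    rcases hg.sign hxy.ne with ⟨hc, hs⟩ | ⟨hc, hs⟩ | ⟨hc, hs⟩
    · refine ⟨m, n, ?_, ?_⟩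
      · show HasGerm (fun k => g x y (some k) ⊔ 0) (g x y none ⊔ 0) m (n * √2)
        rw [sup_eq_left.2 hc]
        exact h1.congr (hs.mono fun k hk => sup_eq_left.2 hk.1.le)
      · show HasGerm (fun k => g y x (some k) ⊔ 0) (g x y none ⊔ 0) (n * √2) m
        rw [sup_eq_left.2 hc]
        exact h2.congr (hs.mono fun k hk => sup_eq_left.2 hk.2.le)
    · refine ⟨0, 0, ?_, ?_⟩
      · show HasGerm (fun k => g x y (some k) ⊔ 0) (g x y none ⊔ 0) (0 : ℤ) ((0 : ℤ) * √2)
        rw [sup_eq_right.2 hc]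
        simp only [Int.cast_zero, zero_mul]
        exact hasGerm_zero.congr (hs.mono fun k hk => sup_eq_right.2 hk.1.le)
      · show HasGerm (fun k => g y x (some k) ⊔ 0) (g x y none ⊔ 0) ((0 : ℤ) * √2) (0 : ℤ)
        rw [sup_eq_right.2 hc]
        simp only [Int.cast_zero, zero_mul]
        exact hasGerm_zero.congr (hs.mono fun k hk => sup_eq_right.2 hk.2.le)
    · refine ⟨0, 0, ?_, ?_⟩
      · show HasGerm (fun k => g x y (some k) ⊔ 0) (g x y none ⊔ 0) (0 : ℤ) ((0 : ℤ) * √2)
        rw [sup_eq_right.2 hc.le]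
        simp only [Int.cast_zero, zero_mul]
        exact hasGerm_zero.congr (hs.mono fun k hk => sup_eq_right.2 hk.1.le)
      · show HasGerm (fun k => g y x (some k) ⊔ 0) (g x y none ⊔ 0) ((0 : ℤ) * √2) (0 : ℤ)
        rw [sup_eq_right.2 hc.le]
        simp only [Int.cast_zero, zero_mul]
        exact hasGerm_zero.congr (hs.mono fun k hk => sup_eq_right.2 hk.2.le)

/-- The group. -/
def GG (κ : Cardinal.{0}) [hκ : Fact (ℵ₀ ≤ κ)] (X : Type) [LinearOrder X] :
    AddSubgroup (X → X → Option ℕ → ℝ) where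
  carrier := {g | IsG κ g}
  zero_mem' := IsG.zero κ
  add_mem' := fun ha hb => IsG.add hκ.out ha hb
  neg_mem' := fun ha => IsG.neg ha

variable {κ : Cardinal.{0}} [hκ : Fact (ℵ₀ ≤ κ)]

lemma GG.sup_mem {g h : X → X → Option ℕ → ℝ} (hg : g ∈ GG κ X) (hh : h ∈ GG κ X) :
    g ⊔ h ∈ GG κ X := by
  have h1 : g ⊔ h = g + (h - g) ⊔ 0 := by
    rw [add_sup, add_sub_cancel, add_zero, sup_comm]
  rw [h1]
  exact (GG κ X).add_mem hg (IsG.pos ((GG κ X).sub_mem hh hg))

lemma GG.inf_mem {g h : X → X → Option ℕ → ℝ} (hg : g ∈ GG κ X) (hh : h ∈ GG κ X) :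
    g ⊓ h ∈ GG κ X := by
  have h1 : g ⊓ h = -((-g) ⊔ (-h)) := by rw [neg_sup, neg_neg, neg_neg]
  rw [h1]
  exact (GG κ X).neg_mem (GG.sup_mem ((GG κ X).neg_mem hg) ((GG κ X).neg_mem hh))

instance : Lattice (GG κ X) :=
  Subtype.lattice (fun _ _ hg hh => GG.sup_mem hg hh) (fun _ _ hg hh => GG.inf_mem hg hh)

instance : IsOrderedAddMonoid (GG κ X) where
  add_le_add_left := fun a b (h : a.1 ≤ b.1) c => add_le_add_left (α := X → X → Option ℕ → ℝ) h c.1

/-- The unit. -/
def one (X : Type) [LinearOrder X] : X → X → Option ℕ → ℝ := fun x y _ => if x = y then 0 else 1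

lemma isG_one : IsG κ (one X) := by
  refine ⟨fun x l => if_pos rfl, fun x y => ?_, fun x y hxy => ⟨0, 0, ?_, ?_⟩, ∅, ∅,
    Set.finite_empty, by simp, ⟨1, ?_⟩, ?_, ?_, ?_⟩
  · unfold one
    by_cases h : x = y
    · rw [if_pos h, if_pos h.symm]
    · rw [if_neg h, if_neg (Ne.symm h)]
  · refine ⟨0, fun k _ => ?_⟩
    simp [one, hxy.ne]
  · refine ⟨0, fun k _ => ?_⟩
    simp [one, hxy.ne, hxy.ne']
  · intro x _ y _ hxy l
    exact if_neg hxy
  · intro x hx; exact hx.elim
  · intro x hx; exact hx.elim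
  · intro x hx; exact hx.elim

/-- Uniform domination. -/
lemma IsG.dominated {g h : X → X → Option ℕ → ℝ} (hg : IsG κ g) (hh : IsG κ h)
    (g0 : 0 ≤ g) (h0 : 0 ≤ h) (hgh : ∀ x y l, h x y l = 0 → g x y l = 0) :
    ∃ K : ℕ, ∀ x y l, g x y l ≤ K * h x y l := by
  -- domination at each pair
  have loc : ∀ x y, ∃ K : ℕ, ∀ l, g x y l ≤ K * h x y l := by
    intro x y
    by_cases hxy : x = y
    · subst hxy
      exact ⟨0, fun l => by rw [hg.diag]; simp⟩
    obtain ⟨α, β, _, h1, _⟩ := hg.germ' hxy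
    obtain ⟨α', β', hnd, h1', _⟩ := hh.germ' hxy
    obtain ⟨K, hK⟩ := h1.dominated h1' (fun k => g0 x y (some k)) (fun k => h0 x y (some k))
      (fun k hk => hgh x y _ hk) (fun hc => hgh x y _ hc) (by
        by_cases hc : h x y none = 0
        · by_cases hs : α' + β' = 0
          · exact Or.inr (Or.inr ⟨hc, hnd hs⟩)
          · exact Or.inr (Or.inl hs)
        · exact Or.inl hc)
    obtain ⟨K', hK'⟩ : ∃ K' : ℝ, g x y none ≤ K' * h x y none := by
      by_cases hc : h x y none = 0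
      · exact ⟨0, by rw [hgh x y none hc]; simp⟩
      · exact ⟨g x y none / h x y none, by rw [div_mul_cancel₀ _ hc]⟩
    refine ⟨⌈max K K'⌉₊, fun l => ?_⟩
    have hle : max K K' ≤ (⌈max K K'⌉₊ : ℝ) := Nat.le_ceil _
    cases l with
    | none =>
      refine hK'.trans (mul_le_mul_of_nonneg_right ((le_max_right K K').trans hle) (h0 x y none))
    | some k =>
      exact (hK k).trans (mul_le_mul_of_nonneg_right ((le_max_left K K').trans hle)
        (h0 x y (some k)))
  -- finitely many pairs of coordinate functions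
  have hfin := (hg.supp.map₂ hκ.out hh.supp Prod.mk).finite_range (d := ((0 : ℝ), (0 : ℝ)))
    (fun x l => by simp only [hg.diag, hh.diag]) (fun x y => by simp only [hg.symm x y, hh.symm x y])
  choose! K hK using loc
  have hex : ∀ f : Option ℕ → ℝ × ℝ, f ∈ {f | ∃ x y, f = fun l => (g x y l, h x y l)} →
      ∃ K : ℕ, ∀ l, (f l).1 ≤ K * (f l).2 := by
    rintro f ⟨x, y, rfl⟩
    exact ⟨K x y, hK x y⟩
  choose! L hL using hex
  obtain ⟨B, hB⟩ := (hfin.image L).bddAbove
  refine ⟨B, fun x y l => ?_⟩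
  have hm : (fun l => (g x y l, h x y l)) ∈ {f | ∃ x y, f = fun l => (g x y l, h x y l)} :=
    ⟨x, y, rfl⟩
  have h1 := hL _ hm l
  have h2 : L (fun l => (g x y l, h x y l)) ≤ B := hB ⟨_, hm, rfl⟩
  refine h1.trans (mul_le_mul_of_nonneg_right (by exact_mod_cast h2) (h0 x y l))

/-- The support of a function. -/
lemma IsG.isElt {g : X → X → Option ℕ → ℝ} (hg : IsG κ g) :
    IsElt κ (fun x y l => g x y l ≠ 0) := by
  refine ⟨fun x l h => h (hg.diag x l), fun x y h => ?_, fun x y hxy => ?_,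
    hg.supp.map (fun r => r ≠ 0)⟩
  · show g y x none ≠ 0
    rw [← hg.symm]; exact h
  · rcases hg.sign hxy with ⟨_, hs⟩ | ⟨_, hs⟩ | ⟨hc, hs⟩
    · obtain ⟨M, hM⟩ := eventually_atTop.1 hs
      exact ⟨M, Or.inl fun n hn => ⟨(hM n hn).1.ne', (hM n hn).2.ne'⟩⟩
    · obtain ⟨M, hM⟩ := eventually_atTop.1 hs
      exact ⟨M, Or.inl fun n hn => ⟨(hM n hn).1.ne, (hM n hn).2.ne⟩⟩
    · obtain ⟨M, hM⟩ := eventually_atTop.1 hs
      exact ⟨M, Or.inr ⟨fun n hn => ⟨fun h => h (hM n hn).1, fun h => h (hM n hn).2⟩,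
        fun h => h hc⟩⟩

/-- The weight function. -/
def wt (N : Set X) (x y : X) (l : Option ℕ) : ℝ :=
  open Classical in
  if x ∉ N ∧ y ∉ N then 0 else
  match l with
  | none => 0
  | some k => if x ∈ N ∧ (y ∉ N ∨ x < y) then (if x < y then 1 else √2) * sq k
      else (if y < x then 1 else √2) * sq (k + 1)

lemma wt_supp (N : Set X) : SuppBy N {y | ∃ x ∈ N, y < x} (wt N) := by
  classical
  refine ⟨⟨0, ?_⟩, ?_, ?_, ?_⟩
  · intro x hx y hy _ l
    exact if_pos ⟨hx, hy⟩
  · intro x hx y hy l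
    simp [wt, hx, hy]
  · intro x hx
    refine ((Set.finite_singleton (fun l : Option ℕ => match l with
      | none => (0 : ℝ)
      | some k => 1 * sq k)).union (Set.finite_singleton (fun l : Option ℕ => match l with
      | none => (0 : ℝ)
      | some k => √2 * sq k))).subset ?_
    rintro f ⟨y, hy, rfl⟩
    by_cases hlt : x < y
    · left
      funext l
      cases l with
      | none => simp [wt, hx]
      | some k => simp [wt, hx, hy, hlt]
    · right
      funext l
      cases l with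
      | none => simp [wt, hx]
      | some k => simp [wt, hx, hy, hlt]
  · intro x hx y hy hyY z hz hzY
    have hxy : x < y := by
      refine lt_of_le_of_ne (not_lt.1 fun h => hyY ⟨x, hx, h⟩) ?_
      rintro rfl; exact hy hx
    have hxz : x < z := by
      refine lt_of_le_of_ne (not_lt.1 fun h => hzY ⟨x, hx, h⟩) ?_
      rintro rfl; exact hz hx
    funext l
    cases l with
    | none => simp [wt, hx]
    | some k => simp [wt, hx, hy, hz, hxy, hxz]

lemma SuppBy.atNone {R : Type} {N Y : Set X} {U : X → X → Option ℕ → R} (h : SuppBy N Y U)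
    (hs : ∀ x y, U x y none = U y x none) :
    SuppBy N Y (fun x y (_ : Option ℕ) => U x y none) := by
  obtain ⟨c, hc⟩ := h.c1
  refine ⟨⟨c, ?_⟩, ?_, ?_, ?_⟩
  · intro x hx y hy hxy _
    exact hc x hx y hy hxy none
  · intro x _ y _ _
    exact hs y x
  · intro x hx
    refine ((h.c3 x hx).image (fun f (_ : Option ℕ) => f none)).subset ?_
    rintro f ⟨y, hy, rfl⟩
    exact ⟨U x y, ⟨y, hy, rfl⟩, rfl⟩
  · intro x hx y hy hyY z hz hzY
    funext _
    show U x y none = U x z none
    rw [h.c4 x hx y hy hyY z hz hzY]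

/-- Every member of the lattice is the support of a function. -/
lemma IsElt.exists_isG (hX : ∀ x : X, #(Set.Iio x) ≤ κ) {U : X → X → Option ℕ → Prop}
    (hU : IsElt κ U) : ∃ g, IsG κ g ∧ (fun x y l => g x y l ≠ 0) = U := by
  classical
  obtain ⟨N, Y, hN, hY, hs⟩ := hU.supp
  obtain ⟨c, hc⟩ := hs.c1
  have hsym : ∀ x y, U x y none = U y x none := fun x y =>
    propext ⟨hU.symm x y, hU.symm y x⟩
  set g : X → X → Option ℕ → ℝ := fun x y l =>
    if U x y l then (if U x y none then 1 else wt N x y l) else 0 with hgdef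
  have hY' : #({y | ∃ x ∈ N, y < x} : Set X) ≤ κ := by
    have h1 : ({y | ∃ x ∈ N, y < x} : Set X) = ⋃ x : N, Set.Iio x.1 := by
      ext y; simp
    rw [h1]
    refine (Cardinal.mk_iUnion_le _).trans ?_
    refine (mul_le_mul' (?_ : _ ≤ κ) (ciSup_le' fun x : N => hX x.1)).trans
      (Cardinal.mul_eq_self hκ.out).le
    exact ((Set.Finite.lt_aleph0 hN).le).trans hκ.out
  -- the weight is not zero where it matters
  have hwt : ∀ x y l, U x y l → ¬ U x y none → wt N x y l ≠ 0 := by
    intro x y l h1 h2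
    have hxy : x ≠ y := by rintro rfl; exact hU.diag _ _ h1
    have hNN : ¬ (x ∉ N ∧ y ∉ N) := by
      rintro ⟨hx, hy⟩
      rw [hc x hx y hy hxy] at h1 h2
      exact h2 h1
    have hs2 : (√2 : ℝ) ≠ 0 := by positivity
    cases l with
    | none => exact absurd h1 h2
    | some k =>
      unfold wt
      rw [if_neg hNN]
      dsimp only
      split_ifs
      · exact mul_ne_zero one_ne_zero (sq_pos _).ne'
      · exact mul_ne_zero hs2 (sq_pos _).ne'
      · exact mul_ne_zero one_ne_zero (sq_pos _).ne'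
      · exact mul_ne_zero hs2 (sq_pos _).ne'
  refine ⟨g, ⟨?_, ?_, ?_, ?_⟩, ?_⟩
  · intro x l
    exact if_neg (hU.diag x l)
  · intro x y
    by_cases h : U x y none
    · have h' := hU.symm _ _ h
      simp [hgdef, h, h']
    · have h' : ¬ U y x none := fun h' => h (hU.symm _ _ h')
      simp [hgdef, h, h']
  · intro x y hxy
    have hne := hxy.ne
    obtain ⟨M, hM⟩ := hU.near x y hne
    by_cases hO : U x y none
    · have hO' := hU.symm _ _ hO
      rcases hM with hM | ⟨_, hM⟩
      swap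
      · exact absurd hO hM
      refine ⟨0, 0, ⟨M, fun k hk => ?_⟩, ⟨M, fun k hk => ?_⟩⟩
      · simp [hgdef, hO, (hM k hk).1]
      · simp [hgdef, hO, hO', (hM k hk).2]
    · have hO' : ¬ U y x none := fun h' => hO (hU.symm _ _ h')
      have hg0 : g x y none = 0 := by simp [hgdef, hO]
      rw [hg0]
      rcases hM with hM | ⟨hM, _⟩
      · have hNN : ¬ (x ∉ N ∧ y ∉ N) := by
          rintro ⟨hx, hy⟩
          have h1 := (hM M le_rfl).1
          rw [hc x hx y hy hne] at h1 hO
          exact hO h1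
        have hNN' : ¬ (y ∉ N ∧ x ∉ N) := fun h => hNN h.symm
        have hnlt : ¬ y < x := not_lt.2 hxy.le
        by_cases hx : x ∈ N
        · refine ⟨1, 0, ⟨M, fun k hk => ?_⟩, ⟨M, fun k hk => ?_⟩⟩
          · simp [hgdef, hO, (hM k hk).1, wt, hx, hxy]
          · simp [hgdef, hO', (hM k hk).2, wt, hx, hxy, hnlt]
        · have hy : y ∈ N := by
            by_contra hy
            exact hNN ⟨hx, hy⟩
          refine ⟨0, 1, ⟨M, fun k hk => ?_⟩, ⟨M, fun k hk => ?_⟩⟩
          · simp [hgdef, hO, (hM k hk).1, wt, hx, hy, hnlt]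
          · simp [hgdef, hO', (hM k hk).2, wt, hx, hy, hnlt]
      · refine ⟨0, 0, ⟨M, fun k hk => ?_⟩, ⟨M, fun k hk => ?_⟩⟩
        · simp [hgdef, (hM k hk).1]
        · simp [hgdef, (hM k hk).2]
  · have s1 : SuppBy N (Y ∪ {y | ∃ x ∈ N, y < x}) U :=
      hs.mono le_rfl Set.subset_union_left
    have s2 := s1.atNone hsym
    have s3 : SuppBy N (Y ∪ {y | ∃ x ∈ N, y < x}) (wt N) :=
      (wt_supp N).mono le_rfl Set.subset_union_right
    refine ⟨N, _, hN, (Cardinal.mk_union_le _ _).trans (Cardinal.add_le_of_le hκ.out hY hY'), ?_⟩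
    exact (s1.map₂ (s2.map₂ s3 (fun (p : Prop) (r : ℝ) => if p then (1 : ℝ) else r))
      (fun (p : Prop) (r : ℝ) => if p then r else 0))
  · funext x y l
    apply propext
    by_cases h : U x y l
    · by_cases hO : U x y none
      · simp [hgdef, h, hO]
      · simp [hgdef, h, hO, hwt x y l h hO]
    · simp [hgdef, h]

/-- The lattice is representable when initial segments are small. -/
theorem inCu (hX : ∀ x : X, #(Set.Iio x) ≤ κ) : InCu (D κ X) := by
  have hcoe : ∀ (n : ℕ) (g : GG κ X) x y l, (n • g).1 x y l = n * g.1 x y l := by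
    intro n g x y l
    show (n • g.1) x y l = _
    simp
  have habs : ∀ (g : GG κ X) x y l, (|g|).1 x y l = |g.1 x y l| := fun _ _ _ _ => rfl
  -- the comparison property
  have hle : ∀ g h : GG κ X, ((⟨_, IsG.isElt g.2⟩ : D κ X) ≤ ⟨_, IsG.isElt h.2⟩) ↔
      ∃ n : ℕ, |g| ≤ n • |h| := by
    intro g h
    constructor
    · intro hsub
      obtain ⟨K, hK⟩ := IsG.dominated (|g|).2 (|h|).2 (show 0 ≤ |g| from abs_nonneg g)
        (show 0 ≤ |h| from abs_nonneg h) (fun x y l h0 => by
          rw [habs] at h0 ⊢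
          rw [abs_eq_zero] at h0 ⊢
          by_contra h1
          exact hsub x y l h1 h0)
      refine ⟨K, fun x y l => ?_⟩
      rw [hcoe]
      exact hK x y l
    · rintro ⟨n, hn⟩ x y l hg h0
      have h1 : (|g|).1 x y l ≤ (n • |h|).1 x y l := hn x y l
      rw [hcoe, habs, habs, h0, abs_zero, mul_zero] at h1
      exact hg (abs_eq_zero.1 (le_antisymm h1 (abs_nonneg _)))
  refine ⟨GG κ X, inferInstance, inferInstance, inferInstance, ?_, ?_,
    exists_orderIso (G := GG κ X) (M := D κ X) (fun g => ⟨_, IsG.isElt g.2⟩) ?_ hle⟩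
  · intro g h hgh x y l
    show g.1 x y l ≤ 0
    by_contra hcon
    push Not at hcon
    obtain ⟨n, hn⟩ := exists_nat_gt (h.1 x y l / g.1 x y l)
    have h1 : ((n + 1) • g).1 x y l ≤ h.1 x y l := hgh (n + 1) (by omega) x y l
    rw [hcoe] at h1
    rw [div_lt_iff₀ hcon] at hn
    push_cast at h1
    nlinarith
  · refine ⟨⟨one X, isG_one⟩, ?_, ?_⟩
    · intro x y l
      show 0 ≤ one X x y l
      unfold one
      split_ifs
      · exact le_rfl
      · exact zero_le_one
    · intro g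
      obtain ⟨K, hK⟩ := IsG.dominated (|g|).2 (isG_one (κ := κ) (X := X))
        (show 0 ≤ |g| from abs_nonneg g) (by
          intro x y l
          show 0 ≤ one X x y l
          unfold one
          split_ifs
          · exact le_rfl
          · exact zero_le_one) (fun x y l h0 => by
          have hxy : x = y := by
            by_contra hxy
            simp [one, hxy] at h0
          subst hxy
          exact IsG.diag (|g|).2 x l)
      refine ⟨K + 1, by omega, fun x y l => ?_⟩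
      rw [hcoe]
      have h1 := hK x y l
      rw [habs] at h1
      have h2 : 0 ≤ one X x y l := by
        unfold one
        split_ifs
        · exact le_rfl
        · exact zero_le_one
      have h3 := le_abs_self (g.1 x y l)
      push_cast
      nlinarith
  · intro U
    obtain ⟨g, hg, hgU⟩ := IsElt.exists_isG hX U.2
    exact ⟨⟨g, hg⟩, Subtype.ext hgU⟩

end

end Pool.Agent.E8helper8.LG
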